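import Pool.Agent.K7.H78.FS.Mul

set_option autoImplicit false

open Filter Topology MeasureTheory AddCircle
open scoped ComplexConjugate

namespace Pool.Agent.K7.H78.FS

/-- The Hardy space inside `L²`. -/
noncomputable def R : Submodule ℂ H := LinearMap.range V.toLinearMap

lemma R_closed : IsClosed (R : Set H) := by
  have h : (R : Set H) = Set.range V := by
    ext f; simp [R]
  rw [h]
  exact V.isometry.isClosedEmbedding.isClosed_range

lemma V_mem (x : E) : V x ∈ R := ⟨x, rfl⟩

/-- The disc algebra. -/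
noncomputable def An : Subalgebra ℂ C(Cir, ℂ) := (Algebra.adjoin ℂ {(fourier 1 : C(Cir, ℂ))}).topologicalClosure

lemma An_closed : IsClosed (An : Set C(Cir, ℂ)) := Subalgebra.isClosed_topologicalClosure _

lemma fourier_mem (n : ℕ) : (fourier (n : ℤ) : C(Cir, ℂ)) ∈ An := by
  have h1 : (fourier 1 : C(Cir, ℂ)) ∈ An :=
    Subalgebra.le_topologicalClosure _ (Algebra.subset_adjoin rfl)
  have h2 : (fourier (n : ℤ) : C(Cir, ℂ)) = (fourier 1) ^ n := by
    ext t
    rw [ContinuousMap.pow_apply, fourier_apply, fourier_apply]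
    rw [← Circle.coe_pow, ← AddCircle.toCircle_nsmul]
    simp
  rw [h2]
  exact pow_mem h1 n

/-- continuous functions that map the Hardy space to itself -/
noncomputable def Gd : Subalgebra ℂ C(Cir, ℂ) where
  carrier := {w | ∀ f ∈ R, M (jj w) f ∈ R}
  mul_mem' := by
    intro a b ha hb f hf
    rw [M_jj_mul]
    exact ha _ (hb _ hf)
  one_mem' := by
    intro f hf
    rw [M_jj_one]; exact hf
  add_mem' := by
    intro a b ha hb f hf
    rw [map_add, map_add]
    exact R.add_mem (ha f hf) (hb f hf)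
  zero_mem' := by
    intro f hf
    rw [map_zero, map_zero]
    exact R.zero_mem
  algebraMap_mem' := by
    intro r f hf
    rw [Algebra.algebraMap_eq_smul_one, map_smul, map_smul]
    have : (r • M (jj 1)) f = r • f := by
      rw [_root_.smul_apply, M_jj_one]
    rw [this]
    exact R.smul_mem _ hf

lemma Gd_closed : IsClosed (Gd : Set C(Cir, ℂ)) := by
  have : (Gd : Set C(Cir, ℂ)) = ⋂ f ∈ R, (fun w => M (jj w) f) ⁻¹' (R : Set H) := by
    ext w; simp [Gd]
  rw [this]
  refine isClosed_biInter fun f _ => R_closed.preimage ?_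
  exact (M.continuous.comp jj.continuous).clm_apply continuous_const

lemma M_fourier (k : ℕ) : M (jj (fourier 1)) (V (e k)) = V (e (k + 1)) := by
  rw [V_e, V_e]
  apply Lp.ext
  filter_upwards [M_coe (jj (fourier 1)) (fourierLp 2 (k : ℤ)), coeFn_fourierLp (T := 1) 2 (k : ℤ),
    coeFn_fourierLp (T := 1) 2 ((k + 1 : ℕ) : ℤ), coe_jj (fourier 1)] with t h1 h2 h3 h4
  rw [h1, h2, h3, h4]
  push_cast
  rw [fourier_add, mul_comm]

lemma fourier_Gd : (fourier 1 : C(Cir, ℂ)) ∈ Gd := by
  rintro _ ⟨x, rfl⟩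
  have h1 := (hasSum_e x).mapL (V.toContinuousLinearMap)
  have h2 := h1.mapL (M (jj (fourier 1)))
  refine R_closed.mem_of_tendsto h2 (Eventually.of_forall fun s => R.sum_mem fun k _ => ?_)
  rw [map_smul, map_smul]
  refine R.smul_mem _ ?_
  have : (M (jj (fourier 1))) (V.toContinuousLinearMap (e k)) = V (e (k + 1)) := M_fourier k
  rw [this]
  exact V_mem _

lemma An_le_Gd : An ≤ Gd := by
  refine Subalgebra.topologicalClosure_minimal (Algebra.adjoin_le ?_) Gd_closed
  rintro _ rfl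
  exact fourier_Gd

/-- pointwise exponential -/
lemma exp_coe (F : C(Cir, ℂ)) (t : Cir) : (NormedSpace.exp F) t = Complex.exp (F t) := by
  have h := NormedSpace.map_exp (ContinuousMap.evalAlgHom ℂ ℂ t : C(Cir, ℂ) →ₐ[ℂ] ℂ)
    (continuous_eval_const t) F
  rw [Complex.exp_eq_exp_ℂ]
  exact h

lemma exp_mem_An {F : C(Cir, ℂ)} (hF : F ∈ An) : NormedSpace.exp F ∈ An :=
  NormedSpace.exp_mem (R := ℂ) An_closed hF

/-- The symbol `exp(i Re F)` for continuous `F`. -/
noncomputable def sym (F : C(Cir, ℂ)) : C(Cir, ℂ) :=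
  star (NormedSpace.exp (-((Complex.I / 2) • F))) * NormedSpace.exp ((Complex.I / 2) • F)

lemma sym_coe (F : C(Cir, ℂ)) (t : Cir) : sym F t = Complex.exp (Complex.I * ((F t).re : ℂ)) := by
  unfold sym
  rw [ContinuousMap.mul_apply, ContinuousMap.star_apply, exp_coe, exp_coe, Complex.star_def,
    ← Complex.exp_conj, ← Complex.exp_add]
  congr 1
  rw [ContinuousMap.neg_apply, ContinuousMap.smul_apply, smul_eq_mul, Complex.re_eq_add_conj]
  simp only [map_neg, map_mul, map_div₀, Complex.conj_I, map_ofNat]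
  ring

lemma norm_exp_le {F : C(Cir, ℂ)} {K : ℝ} (hK : ∀ t, ‖F t‖ ≤ K) (c : ℂ) (hc : ‖c‖ ≤ 1 / 2) :
    ‖NormedSpace.exp (c • F)‖ ≤ Real.exp (K / 2) := by
  rw [ContinuousMap.norm_le _ (Real.exp_pos _).le]
  intro t
  rw [exp_coe, Complex.norm_exp]
  apply Real.exp_le_exp.2
  refine (Complex.re_le_norm _).trans ?_
  rw [ContinuousMap.smul_apply, norm_smul]
  have h1 := hK t
  have h2 := norm_nonneg (F t)
  nlinarith [norm_nonneg c]

/-- The lower bound for Toeplitz operators with symbol `exp(i Re F)`, `F` analytic and continuous. -/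
lemma lower_bound {F : C(Cir, ℂ)} (hF : F ∈ An) {K : ℝ} (hK : ∀ t, ‖F t‖ ≤ K) (x : E) :
    Real.exp (-K) * ‖x‖ ≤ ‖T (jj (sym F)) x‖ := by
  set w : C(Cir, ℂ) := NormedSpace.exp ((Complex.I / 2) • F) with hw
  set w' : C(Cir, ℂ) := NormedSpace.exp (-((Complex.I / 2) • F)) with hw'
  have hwA : w ∈ An := exp_mem_An (An.smul_mem hF _)
  have hw'A : w' ∈ An := exp_mem_An (An.neg_mem (An.smul_mem hF _))
  have hww : w' * w = 1 := by
    ext t
    rw [ContinuousMap.mul_apply, hw, hw', exp_coe, exp_coe, ← Complex.exp_add]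
    simp
  have hww' : w * w' = 1 := by rw [mul_comm]; exact hww
  have hwn : ‖w‖ ≤ Real.exp (K / 2) := norm_exp_le hK _ (by simp)
  have hw'n : ‖w'‖ ≤ Real.exp (K / 2) := by
    have h0 : -((Complex.I / 2) • F) = (-(Complex.I / 2)) • F := (neg_smul _ _).symm
    rw [hw', h0]
    exact norm_exp_le hK _ (by simp)
  have hsym : sym F = star w' * w := rfl
  obtain ⟨y, hy⟩ : M (jj w) (V x) ∈ R := An_le_Gd hwA _ (V_mem x)
  change V y = M (jj w) (V x) at hy
  -- lower bound for `y`
  have h1 : ‖x‖ ≤ Real.exp (K / 2) * ‖y‖ := by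
    have h2 : M (jj w') (V y) = V x := by
      rw [hy, ← M_jj_mul, hww, M_jj_one]
    rw [← V.norm_map x, ← h2]
    refine ((M (jj w')).le_opNorm _).trans ?_
    rw [V.norm_map]
    exact mul_le_mul_of_nonneg_right ((norm_M_le _).trans ((norm_jj_le _).trans hw'n)) (norm_nonneg _)
  -- inversion
  set z : H := M (jj (star w')) (V y) with hz
  have hTz : T (jj (sym F)) x = ContinuousLinearMap.adjoint V.toContinuousLinearMap z := by
    rw [T_app, hsym, M_jj_mul, ← hy]
  set A := ContinuousLinearMap.adjoint V.toContinuousLinearMap with hA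
  have h3 : y = A (M (jj (star w)) (V (A z))) := by
    apply ext_inner_e
    intro j
    rw [hA, ContinuousLinearMap.adjoint_inner_right, ← hA]
    change _ = inner ℂ (V (e j)) (M (jj (star w)) (V (A z)))
    rw [← inner_M, star_star]
    obtain ⟨q, hq⟩ : M (jj w) (V (e j)) ∈ R := An_le_Gd hwA _ (V_mem _)
    change V q = M (jj w) (V (e j)) at hq
    rw [← hq, V.inner_map_map, hA, ContinuousLinearMap.adjoint_inner_right]
    change _ = inner ℂ (V q) z
    rw [hq, hz, ← inner_M, star_star, ← M_jj_mul, hww, M_jj_one, V.inner_map_map]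
  have h4 : ‖y‖ ≤ Real.exp (K / 2) * ‖A z‖ := by
    have h5 : ‖A (M (jj (star w)) (V (A z)))‖ ≤ Real.exp (K / 2) * ‖A z‖ := by
      refine (norm_adj_V_le _).trans (((M (jj (star w))).le_opNorm _).trans ?_)
      rw [V.norm_map]
      refine mul_le_mul_of_nonneg_right ((norm_M_le _).trans ((norm_jj_le _).trans ?_)) (norm_nonneg _)
      exact (norm_star w).le.trans hwn
    rwa [← h3] at h5
  rw [hTz]
  have h6 : Real.exp (-K) * Real.exp (K / 2) * Real.exp (K / 2) = 1 := by
    rw [← Real.exp_add, ← Real.exp_add]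
    ring_nf
    exact Real.exp_zero
  calc Real.exp (-K) * ‖x‖ ≤ Real.exp (-K) * (Real.exp (K / 2) * ‖y‖) :=
        mul_le_mul_of_nonneg_left h1 (Real.exp_pos _).le
    _ ≤ Real.exp (-K) * (Real.exp (K / 2) * (Real.exp (K / 2) * ‖A z‖)) := by
        refine mul_le_mul_of_nonneg_left (mul_le_mul_of_nonneg_left h4 (Real.exp_pos _).le) (Real.exp_pos _).le
    _ = (Real.exp (-K) * Real.exp (K / 2) * Real.exp (K / 2)) * ‖A z‖ := by ring
    _ = ‖A z‖ := by rw [h6, one_mul]

end Pool.Agent.K7.H78.FS
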