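import Mathlib

set_option autoImplicit false

open Filter Topology MeasureTheory

namespace Pool.Agent.K7.H78.FS

/-- `ℓ²(ℕ)`. -/
abbrev E : Type := lp (fun _ : ℕ => ℂ) 2

/-- The standard basis vectors. -/
noncomputable def e (k : ℕ) : E := lp.single 2 k (1 : ℂ)

lemma e_apply (k j : ℕ) : (e k : ℕ → ℂ) j = if j = k then 1 else 0 := by
  unfold e
  by_cases h : j = k
  · subst h; simp
  · simp [h]

lemma inner_e (k : ℕ) (x : E) : inner ℂ (e k) x = x k := by
  unfold e
  rw [lp.inner_single_left]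
  simp

lemma norm_e (k : ℕ) : ‖e k‖ = 1 := by
  unfold e
  rw [lp.norm_single (by norm_num)]
  simp

lemma hasSum_e (x : E) : HasSum (fun k => (x k) • e k) x := by
  have h := lp.hasSum_single (E := fun _ : ℕ => ℂ) (p := 2) (by norm_num) x
  refine h.congr_fun ?_ |> fun h => h
  intro k
  unfold e
  rw [← lp.single_smul]
  simp

lemma ext_e {F : Type*} [NormedAddCommGroup F] [NormedSpace ℂ F] {S T : E →L[ℂ] F}
    (h : ∀ k, S (e k) = T (e k)) : S = T := by
  ext x
  have h1 := (hasSum_e x).mapL S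
  have h2 := (hasSum_e x).mapL T
  simp only [map_smul] at h1 h2
  refine h1.unique ?_
  convert h2 using 3 with k
  rw [h k]

lemma ext_coord {x y : E} (h : ∀ j, x j = y j) : x = y := by
  ext j; exact h j

/-- a closed subspace that contains all basis vectors is everything -/
lemma mem_of_e {K : Submodule ℂ E} (hc : IsClosed (K : Set E)) (h : ∀ k, e k ∈ K) (x : E) : x ∈ K := by
  have h1 := hasSum_e x
  exact hc.mem_of_tendsto h1 (Eventually.of_forall fun s => K.sum_mem fun k _ => K.smul_mem _ (h k))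

/-- The truncation. -/
noncomputable def Pn (n : ℕ) : E →L[ℂ] E :=
  ∑ j ∈ Finset.range (n + 1), (innerSL ℂ (e j)).smulRight (e j)

/-- The flip. -/
noncomputable def Wn (n : ℕ) : E →L[ℂ] E :=
  ∑ j ∈ Finset.range (n + 1), (innerSL ℂ (e (n - j))).smulRight (e j)

lemma Pn_apply (n : ℕ) (x : E) (j : ℕ) : (Pn n x) j = if j ≤ n then x j else 0 := by
  unfold Pn
  rw [sum_apply, lp.coeFn_sum, Finset.sum_apply]
  simp only [ContinuousLinearMap.smulRight_apply, innerSL_apply_apply, inner_e, lp.coeFn_smul,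
    Pi.smul_apply, e_apply, smul_eq_mul, mul_ite, mul_one, mul_zero]
  rw [Finset.sum_ite_eq]
  simp

lemma Wn_apply (n : ℕ) (x : E) (j : ℕ) : (Wn n x) j = if j ≤ n then x (n - j) else 0 := by
  unfold Wn
  rw [sum_apply, lp.coeFn_sum, Finset.sum_apply]
  simp only [ContinuousLinearMap.smulRight_apply, innerSL_apply_apply, inner_e, lp.coeFn_smul,
    Pi.smul_apply, e_apply, smul_eq_mul, mul_ite, mul_one, mul_zero]
  rw [Finset.sum_ite_eq]
  simp

lemma ext_inner_e {x y : E} (h : ∀ j, inner ℂ (e j) x = inner ℂ (e j) y) : x = y := by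
  apply ext_coord
  intro j
  rw [← inner_e, ← inner_e, h]

/-- matrix entries determine an operator -/
lemma ext_entry {S T : E →L[ℂ] E} (h : ∀ j k, (S (e k)) j = (T (e k)) j) : S = T :=
  ext_e fun k => ext_coord fun j => h j k

lemma mul_app (S T : E →L[ℂ] E) (x : E) : (S * T) x = S (T x) := rfl

lemma PP (n : ℕ) : Pn n * Pn n = Pn n := by
  apply ext_entry
  intro j k
  rw [mul_app]
  simp only [Pn_apply]
  split_ifs <;> rfl

lemma WW (n : ℕ) : Wn n * Wn n = Pn n := by
  apply ext_entry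
  intro j k
  rw [mul_app]
  simp only [Pn_apply, Wn_apply]
  by_cases h : j ≤ n
  · rw [if_pos h, if_pos (Nat.sub_le _ _), if_pos h, Nat.sub_sub_self h]
  · rw [if_neg h, if_neg h]

lemma WP (n : ℕ) : Wn n * Pn n = Wn n := by
  apply ext_entry
  intro j k
  rw [mul_app]
  simp only [Pn_apply, Wn_apply]
  by_cases h : j ≤ n
  · rw [if_pos h, if_pos (Nat.sub_le _ _), if_pos h]
  · rw [if_neg h, if_neg h]

lemma PW (n : ℕ) : Pn n * Wn n = Wn n := by
  apply ext_entry
  intro j k
  rw [mul_app]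
  simp only [Pn_apply, Wn_apply]
  split_ifs <;> rfl

lemma adjoint_entry (S : E →L[ℂ] E) (j k : ℕ) : (star S (e k)) j = star ((S (e j)) k) := by
  rw [← inner_e j, ContinuousLinearMap.star_eq_adjoint, ContinuousLinearMap.adjoint_inner_right,
    ← inner_e k, ← inner_conj_symm]
  simp

lemma Pn_e (n k : ℕ) : Pn n (e k) = if k ≤ n then e k else 0 := by
  apply ext_coord
  intro j
  rw [Pn_apply, e_apply]
  by_cases h1 : k ≤ n
  · simp only [h1, if_true, e_apply]
    by_cases h2 : j = k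
    · subst h2; simp [h1]
    · simp [h2]
  · simp only [h1, if_false]
    by_cases h2 : j = k
    · subst h2; simp [h1]
    · simp [h2]

lemma Wn_e (n k : ℕ) : Wn n (e k) = if k ≤ n then e (n - k) else 0 := by
  apply ext_coord
  intro j
  rw [Wn_apply, e_apply]
  by_cases h1 : k ≤ n
  · simp only [h1, if_true, e_apply]
    by_cases h2 : j ≤ n
    · have : (n - j = k) ↔ (j = n - k) := by omega
      simp [h2, this]
    · have : ¬ (j = n - k) := by omega
      simp [h2, this]
  · simp only [h1, if_false]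
    have : ¬ (n - j = k) := by omega
    simp [this]

lemma star_Pn (n : ℕ) : star (Pn n) = Pn n := by
  apply ext_entry
  intro j k
  rw [adjoint_entry, Pn_apply, Pn_apply, e_apply, e_apply]
  by_cases h : j = k
  · subst h; simp
  · have h' : ¬ k = j := fun h2 => h h2.symm
    simp [h, h']

lemma star_Wn (n : ℕ) : star (Wn n) = Wn n := by
  apply ext_entry
  intro j k
  rw [adjoint_entry, Wn_apply, Wn_apply, e_apply, e_apply]
  by_cases h1 : k ≤ n <;> by_cases h2 : j ≤ n
  · have : (n - k = j) ↔ (n - j = k) := by omega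
    simp [h1, h2, this]
  · have : ¬ (n - k = j) := by omega
    simp [h1, h2, this]
  · have : ¬ (n - j = k) := by omega
    simp [h1, h2, this]
  · simp [h1, h2]

lemma norm_le_one_of_star {S : E →L[ℂ] E} (h : ∀ x, ‖S x‖ ^ 2 ≤ ‖x‖ * ‖S x‖) : ‖S‖ ≤ 1 := by
  refine ContinuousLinearMap.opNorm_le_bound _ zero_le_one fun x => ?_
  have h1 := h x
  rw [one_mul]
  by_contra hc
  have hc' : ‖x‖ < ‖S x‖ := not_le.1 hc
  have h2 : 0 < ‖S x‖ := (norm_nonneg x).trans_lt hc'
  have h3 : ‖x‖ * ‖S x‖ < ‖S x‖ * ‖S x‖ := mul_lt_mul_of_pos_right hc' h2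
  rw [sq] at h1
  exact absurd h1 (not_le.2 h3)

lemma inner_star (S : E →L[ℂ] E) (x y : E) : inner ℂ (S x) y = inner ℂ x (star S y) := by
  rw [ContinuousLinearMap.star_eq_adjoint, ContinuousLinearMap.adjoint_inner_right]

lemma norm_Pn_le (n : ℕ) : ‖Pn n‖ ≤ 1 := by
  apply norm_le_one_of_star
  intro x
  have h1 : inner ℂ (Pn n x) (Pn n x) = inner ℂ x (Pn n x) := by
    rw [inner_star, star_Pn, ← mul_app, PP]
  have h2 : ((‖Pn n x‖ : ℂ)) ^ 2 = inner ℂ x (Pn n x) := by
    rw [← h1]; exact (inner_self_eq_norm_sq_to_K (𝕜 := ℂ) (Pn n x)).symm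
  have h3 : ‖((‖Pn n x‖ : ℂ)) ^ 2‖ ≤ ‖x‖ * ‖Pn n x‖ := by
    rw [h2]; exact norm_inner_le_norm _ _
  simpa using h3

lemma norm_Wn_le (n : ℕ) : ‖Wn n‖ ≤ 1 := by
  apply norm_le_one_of_star
  intro x
  have h1 : inner ℂ (Wn n x) (Wn n x) = inner ℂ x (Pn n x) := by
    rw [inner_star, star_Wn, ← mul_app, WW]
  have h4 : inner ℂ (Pn n x) (Pn n x) = inner ℂ x (Pn n x) := by
    rw [inner_star, star_Pn, ← mul_app, PP]
  have h5 : ‖Wn n x‖ = ‖Pn n x‖ := by
    have h6 : ((‖Wn n x‖ : ℂ)) ^ 2 = ((‖Pn n x‖ : ℂ)) ^ 2 :=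
      ((inner_self_eq_norm_sq_to_K (𝕜 := ℂ) (Wn n x)).symm.trans (h1.trans h4.symm)).trans
        (inner_self_eq_norm_sq_to_K (𝕜 := ℂ) (Pn n x))
    have h7 : ‖Wn n x‖ ^ 2 = ‖Pn n x‖ ^ 2 := by exact_mod_cast h6
    exact (sq_eq_sq₀ (norm_nonneg _) (norm_nonneg _)).1 h7
  rw [h5]
  have h2 : ((‖Pn n x‖ : ℂ)) ^ 2 = inner ℂ x (Pn n x) := by
    rw [← h4]; exact (inner_self_eq_norm_sq_to_K (𝕜 := ℂ) (Pn n x)).symm
  have h3 : ‖((‖Pn n x‖ : ℂ)) ^ 2‖ ≤ ‖x‖ * ‖Pn n x‖ := by
    rw [h2]; exact norm_inner_le_norm _ _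
  simpa using h3

/-- uniformly bounded sequences of operators: the set of strong convergence is closed -/
lemma tendsto_of_e {S : ℕ → (E →L[ℂ] E)} {T : E →L[ℂ] E} {M : ℝ} (hM : ∀ n, ‖S n‖ ≤ M)
    (h : ∀ k, Tendsto (fun n => S n (e k)) atTop (𝓝 (T (e k)))) (x : E) :
    Tendsto (fun n => S n x) atTop (𝓝 (T x)) := by
  have hM0 : 0 ≤ M := (norm_nonneg _).trans (hM 0)
  -- the subspace
  let K : Submodule ℂ E :=
    { carrier := {x | Tendsto (fun n => S n x) atTop (𝓝 (T x))}
      add_mem' := by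
        intro a b ha hb
        simp only [Set.mem_ofPred_eq, map_add] at *
        exact ha.add hb
      zero_mem' := by simp
      smul_mem' := by
        intro c a ha
        simp only [Set.mem_ofPred_eq, map_smul] at *
        exact ha.const_smul c }
  have hK : IsClosed (K : Set E) := by
    rw [← isSeqClosed_iff_isClosed]
    intro u a hu ha
    change Tendsto (fun n => S n a) atTop (𝓝 (T a))
    rw [Metric.tendsto_atTop]
    intro ε hε
    set L := M + ‖T‖ + 1 with hL
    have hL0 : 0 < L := by positivity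
    obtain ⟨m, hm⟩ := (Metric.tendsto_atTop.1 ha (ε / (2 * L)) (by positivity))
    have hm' := hm m le_rfl
    have hum : Tendsto (fun n => S n (u m)) atTop (𝓝 (T (u m))) := hu m
    obtain ⟨N, hN⟩ := Metric.tendsto_atTop.1 hum (ε / 2) (by positivity)
    refine ⟨N, fun n hn => ?_⟩
    have h1 := hN n hn
    rw [dist_eq_norm] at h1 hm' ⊢
    have h2 : S n a - T a = (S n (u m) - T (u m)) - (S n (u m - a) - T (u m - a)) := by
      simp only [map_sub]; abel
    rw [h2]
    have h3 : ‖S n (u m - a)‖ ≤ M * ‖u m - a‖ :=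
      ((S n).le_opNorm _).trans (mul_le_mul_of_nonneg_right (hM n) (norm_nonneg _))
    have h4 : ‖T (u m - a)‖ ≤ ‖T‖ * ‖u m - a‖ := T.le_opNorm _
    have h5 : L * ‖u m - a‖ < L * (ε / (2 * L)) := mul_lt_mul_of_pos_left hm' hL0
    have h6 : L * (ε / (2 * L)) = ε / 2 := by field_simp
    have h7 := norm_nonneg (u m - a)
    calc ‖(S n (u m) - T (u m)) - (S n (u m - a) - T (u m - a))‖
        ≤ ‖S n (u m) - T (u m)‖ + (‖S n (u m - a)‖ + ‖T (u m - a)‖) :=
          (norm_sub_le _ _).trans (add_le_add_right (norm_sub_le _ _) _)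
      _ < ε / 2 + ε / 2 := by
          apply add_lt_add h1
          nlinarith
      _ = ε := by ring
  exact mem_of_e hK h x

lemma Pn_tendsto (x : E) : Tendsto (fun n => Pn n x) atTop (𝓝 x) := by
  have := tendsto_of_e (S := Pn) (T := 1) norm_Pn_le (fun k => ?_) x
  · simpa using this
  · apply tendsto_const_nhds.congr'
    filter_upwards [eventually_ge_atTop k] with n hn
    rw [Pn_e, if_pos hn]; simp

/-- `W_n x → 0` weakly -/
lemma Wn_weak (x z : E) : Tendsto (fun n => inner ℂ z (Wn n x)) atTop (𝓝 0) := by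
  let S : ℕ → (E →L[ℂ] E) := fun n => (innerSL ℂ z ∘L Wn n).smulRight (e 0)
  have hS : ∀ n, ‖S n‖ ≤ ‖z‖ := by
    intro n
    refine ContinuousLinearMap.opNorm_le_bound _ (norm_nonneg _) fun x => ?_
    simp only [S, ContinuousLinearMap.smulRight_apply, norm_smul, norm_e, mul_one,
      ContinuousLinearMap.comp_apply, innerSL_apply_apply]
    refine (norm_inner_le_norm _ _).trans (mul_le_mul_of_nonneg_left ?_ (norm_nonneg _))
    exact ((Wn n).le_opNorm x).trans (mul_le_of_le_one_left (norm_nonneg _) (norm_Wn_le n))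
  have hz : Tendsto (fun n => z n) atTop (𝓝 0) := by
    have h1 := lp.hasSum_norm (p := 2) (by norm_num) z
    have h2 := h1.summable.tendsto_atTop_zero
    rw [tendsto_zero_iff_norm_tendsto_zero]
    have h3 : Tendsto (fun n => (‖z n‖ ^ (2 : ENNReal).toReal) ^ (1/2 : ℝ)) atTop (𝓝 (0 ^ (1/2:ℝ))) :=
      h2.rpow_const (Or.inr (by norm_num))
    rw [Real.zero_rpow (by norm_num)] at h3
    refine h3.congr fun n => ?_
    rw [← Real.rpow_mul (norm_nonneg _)]
    norm_num
  have h := tendsto_of_e (S := S) (T := 0) hS (fun k => ?_) x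
  · have h2 : Tendsto (fun n => inner ℂ (e 0) (S n x)) atTop (𝓝 (inner ℂ (e 0) (0 : E))) :=
      tendsto_const_nhds.inner h
    rw [inner_zero_right] at h2
    refine h2.congr fun n => ?_
    rw [inner_e]
    simp [S, e_apply]
  · rw [zero_apply, tendsto_zero_iff_norm_tendsto_zero]
    have h4 : Tendsto (fun n => ‖z (n - k)‖) atTop (𝓝 0) := by
      have := (hz.comp (tendsto_sub_atTop_nat k)).norm
      simpa using this
    refine h4.congr' ?_
    filter_upwards [eventually_ge_atTop k] with n hn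
    simp only [S, ContinuousLinearMap.smulRight_apply, norm_smul, norm_e, mul_one,
      ContinuousLinearMap.comp_apply, innerSL_apply_apply]
    rw [Wn_e, if_pos hn, ← inner_conj_symm, inner_e]
    simp

/-- compact operators map `W_n x` to a norm null sequence -/
lemma compact_Wn {K : E →L[ℂ] E} (hK : IsCompactOperator K) (x : E) :
    Tendsto (fun n => K (Wn n x)) atTop (𝓝 0) := by
  have hcomp : IsCompact (closure (K '' Metric.closedBall (0 : E) ‖x‖)) :=
    hK.isCompact_closure_image_closedBall ‖x‖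
  apply tendsto_of_subseq_tendsto
  intro ns hns
  have hmem : ∀ k, K (Wn (ns k) x) ∈ closure (K '' Metric.closedBall (0 : E) ‖x‖) := by
    intro k
    apply subset_closure
    refine ⟨_, ?_, rfl⟩
    rw [mem_closedBall_zero_iff]
    exact ((Wn (ns k)).le_opNorm x).trans (mul_le_of_le_one_left (norm_nonneg _) (norm_Wn_le _))
  obtain ⟨y, -, ms, hms, hy⟩ := hcomp.tendsto_subseq hmem
  refine ⟨ms, ?_⟩
  have hy0 : y = 0 := by
    apply ext_inner_e
    intro j
    rw [inner_zero_right]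
    have h1 : Tendsto (fun k => inner ℂ (e j) (K (Wn (ns (ms k)) x))) atTop (𝓝 (inner ℂ (e j) y)) :=
      (tendsto_const_nhds).inner hy
    have h2 : Tendsto (fun k => inner ℂ (e j) (K (Wn (ns (ms k)) x))) atTop (𝓝 0) := by
      have h3 := (Wn_weak x (star K (e j))).comp (hns.comp hms.tendsto_atTop)
      refine h3.congr fun k => ?_
      simp only [Function.comp_apply, ContinuousLinearMap.star_eq_adjoint,
        ContinuousLinearMap.adjoint_inner_left]
    exact tendsto_nhds_unique h1 h2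
  rw [hy0] at hy
  exact hy

end Pool.Agent.K7.H78.FS
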