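import Pool.Agent.K7.H78.FS.Alg

set_option autoImplicit false

open Filter Topology MeasureTheory AddCircle
open scoped ComplexConjugate

namespace Pool.Agent.K7.H78.FS

/-- real part of `fourier m` -/
noncomputable def cs (m : ℤ) (t : Cir) : ℝ := (fourier m t).re

lemma cs_cont (m : ℤ) : Continuous (cs m) :=
  Complex.continuous_re.comp (fourier m).continuous

lemma cs_abs (m : ℤ) (t : Cir) : |cs m t| ≤ 1 := by
  have h1 : ‖(fourier m t : ℂ)‖ ≤ 1 := by
    rw [fourier_apply]; exact (Circle.norm_coe _).le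
  exact (Complex.abs_re_le_norm _).trans h1

lemma int_cont {f : Cir → ℝ} (hf : Continuous f) : Integrable f mu :=
  hf.integrable_of_hasCompactSupport (HasCompactSupport.of_compactSpace f)

lemma intC_cont {f : Cir → ℂ} (hf : Continuous f) : Integrable f mu :=
  hf.integrable_of_hasCompactSupport (HasCompactSupport.of_compactSpace f)

lemma cs_shift (m : ℤ) (hm : m ≠ 0) (t : Cir) :
    cs m (t + ((1 / 2 / m : ℝ) : Cir)) = - cs m t := by
  unfold cs
  rw [fourier_add_half_inv_index hm zero_lt_one t]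
  simp

lemma int_cs (m : ℤ) (hm : m ≠ 0) : ∫ t, cs m t ∂mu = 0 := by
  have h1 : ∫ t, cs m (t + ((1 / 2 / m : ℝ) : Cir)) ∂mu = ∫ t, cs m t ∂mu :=
    integral_add_right_eq_self (μ := mu) (fun t => cs m t) _
  simp only [cs_shift m hm, integral_neg] at h1
  linarith

lemma cs_sq (t : Cir) : cs 1 t ^ 2 = 1 / 2 + cs 2 t / 2 := by
  have h1 : (fourier 2 t : ℂ) = fourier 1 t * fourier 1 t := by
    rw [← fourier_add]; norm_num
  have h2 : Complex.normSq (fourier 1 t : ℂ) = 1 := by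
    rw [Complex.normSq_eq_norm_sq, fourier_apply, Circle.norm_coe]; norm_num
  rw [Complex.normSq_apply] at h2
  unfold cs
  rw [h1, Complex.mul_re]
  nlinarith

lemma int_cs_sq : ∫ t, cs 1 t ^ 2 ∂mu = 1 / 2 := by
  simp only [cs_sq]
  have h0 := int_cs 2 (by norm_num)
  have h1 : ∫ t, (1 / 2 + cs 2 t / 2) ∂mu = ∫ _t : Cir, (1 / 2 : ℝ) ∂mu + ∫ t, cs 2 t / 2 ∂mu :=
    integral_add (integrable_const _) ((int_cont (cs_cont 2)).div_const 2)
  have h2 : ∫ t, cs 2 t / 2 ∂mu = (∫ t, cs 2 t ∂mu) / 2 := integral_div _ _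
  rw [h1, h2, h0]
  simp

/-- `J(C) = ∫ cos(C cos 2π t) dt` -/
noncomputable def J (C : ℝ) : ℝ := ∫ t, Real.cos (C * cs 1 t) ∂mu

lemma J_cont : Continuous J := by
  unfold J
  apply continuous_of_dominated (bound := fun _ => (1 : ℝ))
  · intro C
    exact (Real.continuous_cos.comp (continuous_const.mul (cs_cont 1))).aestronglyMeasurable
  · intro C
    refine ae_of_all _ fun t => ?_
    rw [Real.norm_eq_abs]
    exact Real.abs_cos_le_one _
  · exact integrable_const _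
  · refine ae_of_all _ fun t => ?_
    exact Real.continuous_cos.comp (continuous_id.mul continuous_const)

lemma J_zero : J 0 = 1 := by
  unfold J; simp

lemma J_pi : J Real.pi ≤ 0 := by
  have h1 : J Real.pi ≤ ∫ t, (1 - 2 * cs 1 t ^ 2) ∂mu := by
    unfold J
    apply integral_mono
    · exact int_cont (Real.continuous_cos.comp (continuous_const.mul (cs_cont 1)))
    · exact int_cont (continuous_const.sub (continuous_const.mul ((cs_cont 1).pow 2)))
    · intro t
      have h2 : |Real.pi * cs 1 t| ≤ Real.pi := by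
        rw [abs_mul, abs_of_pos Real.pi_pos]
        exact mul_le_of_le_one_right Real.pi_pos.le (cs_abs 1 t)
      have h3 := Real.cos_le_one_sub_mul_cos_sq h2
      refine h3.trans (le_of_eq ?_)
      have := Real.pi_ne_zero
      field_simp
  have h4 : ∫ t, (1 - 2 * cs 1 t ^ 2) ∂mu = 0 := by
    have h5 : ∫ t, (1 - 2 * cs 1 t ^ 2) ∂mu = ∫ _t : Cir, (1 : ℝ) ∂mu - ∫ t, 2 * cs 1 t ^ 2 ∂mu :=
      integral_sub (integrable_const _) (int_cont (continuous_const.mul ((cs_cont 1).pow 2)))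
    have h6 : ∫ t, 2 * cs 1 t ^ 2 ∂mu = 2 * ∫ t, cs 1 t ^ 2 ∂mu := integral_const_mul _ _
    rw [h5, h6, int_cs_sq]
    simp
  linarith

lemma exists_C : ∃ C : ℝ, 0 ≤ C ∧ C ≤ Real.pi ∧ J C = 0 := by
  have h := intermediate_value_Icc' Real.pi_pos.le J_cont.continuousOn
  have h2 : (0 : ℝ) ∈ Set.Icc (J Real.pi) (J 0) := ⟨J_pi, by rw [J_zero]; norm_num⟩
  obtain ⟨C, hC, hJ⟩ := h h2
  exact ⟨C, hC.1, hC.2, hJ⟩

lemma int_exp_one {C : ℝ} (hC : J C = 0) :
    ∫ t, Complex.exp (Complex.I * ((C * cs 1 t : ℝ) : ℂ)) ∂mu = 0 := by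
  have h1 : ∀ t : Cir, Complex.exp (Complex.I * ((C * cs 1 t : ℝ) : ℂ)) =
      ((Real.cos (C * cs 1 t) : ℝ) : ℂ) + ((Real.sin (C * cs 1 t) : ℝ) : ℂ) * Complex.I := by
    intro t
    rw [mul_comm, Complex.exp_mul_I]
    push_cast
    rfl
  have hs : ∫ t, Real.sin (C * cs 1 t) ∂mu = 0 := by
    have h2 : ∫ t, Real.sin (C * cs 1 (t + ((1 / 2 / (1 : ℤ) : ℝ) : Cir))) ∂mu
        = ∫ t, Real.sin (C * cs 1 t) ∂mu :=
      integral_add_right_eq_self (μ := mu) (fun t => Real.sin (C * cs 1 t)) _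
    simp only [cs_shift 1 one_ne_zero, mul_neg, Real.sin_neg, integral_neg] at h2
    linarith
  simp only [h1]
  have hc : ∫ t, Real.cos (C * cs 1 t) ∂mu = 0 := hC
  have e1 : ∫ t, ((Real.cos (C * cs 1 t) : ℝ) : ℂ) ∂mu = ((∫ t, Real.cos (C * cs 1 t) ∂mu : ℝ) : ℂ) :=
    integral_ofReal
  have e2 : ∫ t, ((Real.sin (C * cs 1 t) : ℝ) : ℂ) ∂mu = ((∫ t, Real.sin (C * cs 1 t) ∂mu : ℝ) : ℂ) :=
    integral_ofReal
  rw [integral_add, integral_mul_const, e1, e2, hs, hc]
  · simp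
  · exact intC_cont (Complex.continuous_ofReal.comp (Real.continuous_cos.comp (continuous_const.mul (cs_cont 1))))
  · exact (intC_cont (Complex.continuous_ofReal.comp
      (Real.continuous_sin.comp (continuous_const.mul (cs_cont 1))))).mul_const _

/-- The local model symbol. -/
noncomputable def al (C : ℝ) (m : ℕ) : C(Cir, ℂ) :=
  ⟨fun t => Complex.exp (Complex.I * ((C * cs (m : ℤ) t : ℝ) : ℂ)), by
    have := cs_cont (m : ℤ)
    fun_prop⟩

lemma cs_nsmul (m : ℕ) (t : Cir) : cs (m : ℤ) t = cs 1 (m • t) := by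
  unfold cs
  rw [fourier_apply, fourier_apply, one_zsmul, natCast_zsmul]

lemma al_coeff_zero {C : ℝ} (hC : J C = 0) {m : ℕ} (hm : 0 < m) : ∫ t, al C m t ∂mu = 0 := by
  have h1 : MeasurePreserving (fun t : Cir => (m : ℤ) • t) mu mu :=
    Measure.measurePreserving_zsmul mu (by exact_mod_cast hm.ne')
  set g : Cir → ℂ := fun t => Complex.exp (Complex.I * ((C * cs 1 t : ℝ) : ℂ)) with hg
  have hgc : Continuous g := by
    have := cs_cont 1
    rw [hg]; fun_prop
  have h2 : ∫ t, g t ∂(Measure.map (fun t : Cir => (m : ℤ) • t) mu) = ∫ t, g ((m : ℤ) • t) ∂mu :=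
    integral_map h1.measurable.aemeasurable hgc.aestronglyMeasurable
  rw [h1.map_eq] at h2
  have h3 : ∀ t, al C m t = g ((m : ℤ) • t) := by
    intro t
    change Complex.exp (Complex.I * ((C * cs (m : ℤ) t : ℝ) : ℂ)) = _
    rw [cs_nsmul, hg, natCast_zsmul]
  simp only [h3]
  rw [← h2]
  exact int_exp_one hC

lemma fourier_shift (n : ℤ) (t : Cir) (r : ℝ) :
    (fourier n (t + (r : Cir)) : ℂ) = fourier n t * Complex.exp (2 * Real.pi * Complex.I * n * r) := by
  rw [fourier_apply, smul_add, toCircle_add, Circle.coe_mul, ← fourier_apply, ← fourier_apply,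
    fourier_coe_apply]
  congr 2
  simp

lemma al_shift (C : ℝ) {m : ℕ} (hm : 0 < m) (t : Cir) :
    al C m (t + ((1 / m : ℝ) : Cir)) = al C m t := by
  change Complex.exp (Complex.I * ((C * cs (m : ℤ) _ : ℝ) : ℂ)) =
    Complex.exp (Complex.I * ((C * cs (m : ℤ) t : ℝ) : ℂ))
  have h : cs (m : ℤ) (t + ((1 / m : ℝ) : Cir)) = cs (m : ℤ) t := by
    unfold cs
    rw [fourier_shift]
    have h1 : (2 * Real.pi * Complex.I * ((m : ℤ) : ℂ) * ((1 / m : ℝ) : ℂ)) = 2 * Real.pi * Complex.I := by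
      have : (m : ℂ) ≠ 0 := by exact_mod_cast hm.ne'
      push_cast
      field_simp
    rw [h1, Complex.exp_two_pi_mul_I, mul_one]
  rw [h]

lemma al_coeff {C : ℝ} (hC : J C = 0) {m : ℕ} (hm : 0 < m) {s : ℤ} (hs : |s| < m) :
    fourierCoeff (⇑(al C m)) s = 0 := by
  by_cases h0 : s = 0
  · subst h0
    unfold fourierCoeff
    simp only [neg_zero, fourier_zero, one_smul]
    exact al_coeff_zero hC hm
  unfold fourierCoeff
  set I := ∫ t : Cir, (fourier (-s) t : ℂ) • al C m t ∂mu with hI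
  have h1 : ∫ t : Cir, (fourier (-s) (t + ((1 / m : ℝ) : Cir)) : ℂ) • al C m (t + ((1 / m : ℝ) : Cir)) ∂mu = I :=
    integral_add_right_eq_self (μ := mu) (fun t => (fourier (-s) t : ℂ) • al C m t) _
  have h2 : ∀ t : Cir, (fourier (-s) (t + ((1 / m : ℝ) : Cir)) : ℂ) • al C m (t + ((1 / m : ℝ) : Cir)) =
      Complex.exp (2 * Real.pi * Complex.I * ((-s : ℤ) : ℂ) * ((1 / m : ℝ) : ℂ)) *
        ((fourier (-s) t : ℂ) • al C m t) := by
    intro t
    rw [al_shift C hm, fourier_shift, smul_eq_mul, smul_eq_mul]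
    ring
  simp only [h2] at h1
  rw [integral_const_mul, ← hI] at h1
  have h3 : Complex.exp (2 * Real.pi * Complex.I * ((-s : ℤ) : ℂ) * ((1 / m : ℝ) : ℂ)) ≠ 1 := by
    intro h
    rw [Complex.exp_eq_one_iff] at h
    obtain ⟨n, hn⟩ := h
    have hm' : (m : ℂ) ≠ 0 := by exact_mod_cast hm.ne'
    have hpi : (2 * Real.pi * Complex.I : ℂ) ≠ 0 := Complex.two_pi_I_ne_zero
    have h4 : ((-s : ℤ) : ℂ) = n * m := by
      have h5 : (2 * Real.pi * Complex.I : ℂ) * ((-s : ℤ) : ℂ) = (2 * Real.pi * Complex.I : ℂ) * (n * m) := by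
        have h6 : (2 * Real.pi * Complex.I * ((-s : ℤ) : ℂ) * ((1 / m : ℝ) : ℂ)) * m =
          (2 * Real.pi * Complex.I : ℂ) * ((-s : ℤ) : ℂ) := by
          push_cast
          field_simp
        rw [← h6, hn]
        ring
      exact mul_left_cancel₀ hpi h5
    have h7 : -s = n * m := by exact_mod_cast h4
    have h8 : |s| = |n| * m := by
      rw [← abs_neg, h7, abs_mul]
      simp
    have h9 : n ≠ 0 := by
      rintro rfl
      simp at h7
      exact h0 h7
    have h10 : 1 ≤ |n| := Int.one_le_abs h9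
    have h11 : (m : ℤ) ≤ |n| * m := le_mul_of_one_le_left (by positivity) h10
    omega
  have h12 : (Complex.exp (2 * Real.pi * Complex.I * ((-s : ℤ) : ℂ) * ((1 / m : ℝ) : ℂ)) - 1) * I = 0 := by
    rw [sub_mul, h1, one_mul, sub_self]
  rcases mul_eq_zero.1 h12 with h | h
  · exact absurd (sub_eq_zero.1 h) h3
  · exact h

end Pool.Agent.K7.H78.FS
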