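import Pool.Agent.K7.H78.FS.Vec

set_option autoImplicit false

open Filter Topology MeasureTheory AddCircle
open scoped ComplexConjugate

namespace Pool.Agent.K7.H78.FS

abbrev Op : Type := E →L[ℂ] E

/-- strong convergence of products -/
lemma sot_mul {S R : ℕ → Op} {S' R' : Op} {L : ℝ} (hL : ∀ n, ‖S n‖ ≤ L)
    (hS : ∀ x, Tendsto (fun n => S n x) atTop (𝓝 (S' x)))
    (hR : ∀ x, Tendsto (fun n => R n x) atTop (𝓝 (R' x))) (x : E) :
    Tendsto (fun n => (S n * R n) x) atTop (𝓝 ((S' * R') x)) := by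
  have h1 : Tendsto (fun n => S n (R n x - R' x)) atTop (𝓝 0) := by
    apply squeeze_zero_norm (a := fun n => L * ‖R n x - R' x‖)
    · intro n
      exact ((S n).le_opNorm _).trans (mul_le_mul_of_nonneg_right (hL n) (norm_nonneg _))
    · have h2 : Tendsto (fun n => L * ‖R n x - R' x‖) atTop (𝓝 (L * ‖R' x - R' x‖)) :=
        (((hR x).sub_const _).norm).const_mul L
      simpa using h2
  have h3 := h1.add (hS (R' x))
  rw [zero_add] at h3
  refine h3.congr fun n => ?_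
  rw [map_sub, mul_app]
  abel

lemma sot_pow {S : ℕ → Op} {S' : Op} {L : ℝ} (hL : ∀ n, ‖S n‖ ≤ L)
    (hS : ∀ x, Tendsto (fun n => S n x) atTop (𝓝 (S' x))) (k : ℕ) (x : E) :
    Tendsto (fun n => (S n ^ k) x) atTop (𝓝 ((S' ^ k) x)) := by
  induction k generalizing x with
  | zero => simp
  | succ k ih =>
    simp only [pow_succ']
    exact sot_mul hL hS ih x

lemma sot_aeval {S : ℕ → Op} {S' : Op} {L : ℝ} (hL : ∀ n, ‖S n‖ ≤ L)
    (hS : ∀ x, Tendsto (fun n => S n x) atTop (𝓝 (S' x))) (p : Polynomial ℂ) (x : E) :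
    Tendsto (fun n => (Polynomial.aeval (S n) p) x) atTop (𝓝 ((Polynomial.aeval S' p) x)) := by
  simp only [Polynomial.aeval_eq_sum_range]
  have h : ∀ R : Op, (∑ i ∈ Finset.range (p.natDegree + 1), p.coeff i • R ^ i) x =
      ∑ i ∈ Finset.range (p.natDegree + 1), p.coeff i • (R ^ i) x := by
    intro R
    rw [sum_apply]
    rfl
  simp only [h]
  exact tendsto_finsetSum _ fun i _ => (sot_pow hL hS i x).const_smul _

/-- the cut-off function -/
noncomputable def ff (c : ℝ) (s : ℝ) : ℝ := max 0 (min 1 ((c ^ 2 - s) * (4 / (3 * c ^ 2))))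

lemma ff_cont (c : ℝ) : Continuous (ff c) := by
  unfold ff; fun_prop

lemma ff_zero {c s : ℝ} (h : c ^ 2 ≤ s) : ff c s = 0 := by
  unfold ff
  have h1 : (c ^ 2 - s) * (4 / (3 * c ^ 2)) ≤ 0 :=
    mul_nonpos_of_nonpos_of_nonneg (by linarith) (by positivity)
  rw [max_eq_left]
  exact (min_le_right _ _).trans h1

lemma ff_lower {c s : ℝ} (hc : 0 < c) (hs : 0 ≤ s) : 1 - 4 / c ^ 2 * s ≤ ff c s := by
  unfold ff
  by_cases h : s ≤ c ^ 2 / 4
  · have h1 : 1 ≤ (c ^ 2 - s) * (4 / (3 * c ^ 2)) := by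
      have h2 : 3 * c ^ 2 / 4 ≤ c ^ 2 - s := by linarith
      calc (1 : ℝ) = (3 * c ^ 2 / 4) * (4 / (3 * c ^ 2)) := by field_simp
        _ ≤ _ := mul_le_mul_of_nonneg_right h2 (by positivity)
    rw [min_eq_left h1]
    have : 0 ≤ 4 / c ^ 2 * s := by positivity
    refine le_trans ?_ (le_max_right _ _)
    linarith
  · have h' : c ^ 2 / 4 < s := not_le.1 h
    refine le_trans ?_ (le_max_left _ _)
    have h3 : 1 ≤ 4 / c ^ 2 * s := by
      calc (1 : ℝ) = 4 / c ^ 2 * (c ^ 2 / 4) := by field_simp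
        _ ≤ _ := mul_le_mul_of_nonneg_left h'.le (by positivity)
    linarith

section general

variable {H0 : Type*} [NormedAddCommGroup H0] [InnerProductSpace ℂ H0] [CompleteSpace H0]

lemma cfc_limit_zero {c : ℝ} (A : H0 →L[ℂ] H0) (hA : ∀ x, c * ‖x‖ ≤ ‖A x‖) (hc : 0 < c) :
    cfc (ff c) (star A * A) = 0 := by
  have hsa : IsSelfAdjoint (star A * A) := IsSelfAdjoint.star_mul_self A
  have hle : algebraMap ℝ (H0 →L[ℂ] H0) (c ^ 2) ≤ star A * A := by
    rw [ContinuousLinearMap.le_def, ContinuousLinearMap.isPositive_iff_complex]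
    intro x
    have h1 : inner ℂ ((star A * A - algebraMap ℝ (H0 →L[ℂ] H0) (c ^ 2)) x) x =
        ((‖A x‖ ^ 2 - c ^ 2 * ‖x‖ ^ 2 : ℝ) : ℂ) := by
      have e1 : (star A * A - algebraMap ℝ (H0 →L[ℂ] H0) (c ^ 2)) x = star A (A x) - (c ^ 2 : ℝ) • x := by
        rw [Algebra.algebraMap_eq_smul_one]; rfl
      have e2 : inner ℂ (star A (A x)) x = ((‖A x‖ : ℂ)) ^ 2 := by
        rw [ContinuousLinearMap.star_eq_adjoint, ContinuousLinearMap.adjoint_inner_left]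
        exact inner_self_eq_norm_sq_to_K (A x)
      have e3 : inner ℂ ((c ^ 2 : ℝ) • x) x = ((c ^ 2 : ℝ) : ℂ) * ((‖x‖ : ℂ)) ^ 2 := by
        rw [show ((c ^ 2 : ℝ) • x) = ((c ^ 2 : ℝ) : ℂ) • x from rfl, inner_smul_left, Complex.conj_ofReal]
        congr 1
        exact inner_self_eq_norm_sq_to_K x
      rw [e1, inner_sub_left, e2, e3]
      push_cast; ring
    rw [h1]
    have h2 := hA x
    have h3 : (c * ‖x‖) ^ 2 ≤ ‖A x‖ ^ 2 := pow_le_pow_left₀ (by positivity) h2 2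
    refine ⟨?_, ?_⟩
    · rw [RCLike.re_to_complex, Complex.ofReal_re]
    · rw [RCLike.re_to_complex, Complex.ofReal_re]
      nlinarith
  rw [algebraMap_le_iff_le_spectrum] at hle
  have h2 : cfc (ff c) (star A * A) = cfc (fun _ : ℝ => (0 : ℝ)) (star A * A) :=
    cfc_congr fun s hs => ff_zero (hle s hs)
  rw [h2]
  exact cfc_const_zero ℝ (star A * A)

lemma cfc_big {c : ℝ} (hc : 0 < c) (A : H0 →L[ℂ] H0) (x : H0) (hx : ‖A x‖ ^ 2 ≤ c ^ 2 / 16 * ‖x‖ ^ 2) :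
    3 / 4 * ‖x‖ ≤ ‖cfc (ff c) (star A * A) x‖ := by
  have hsa : IsSelfAdjoint (star A * A) := IsSelfAdjoint.star_mul_self A
  set D : H0 →L[ℂ] H0 := cfc (ff c) (star A * A) with hD
  have hcont : Continuous (fun s : ℝ => 1 - 4 / c ^ 2 * s) := by fun_prop
  have h1 : cfc (fun s : ℝ => 1 - 4 / c ^ 2 * s) (star A * A) ≤ D := by
    apply cfc_mono
    · intro s hs
      exact ff_lower hc (spectrum_star_mul_self_nonneg s hs)
    · exact hcont.continuousOn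
    · exact (ff_cont c).continuousOn
  have h2 : cfc (fun s : ℝ => 1 - 4 / c ^ 2 * s) (star A * A) = 1 - (4 / c ^ 2) • (star A * A) := by
    rw [cfc_sub (fun _ => (1 : ℝ)) (fun s => 4 / c ^ 2 * s), cfc_const_one ℝ (star A * A),
      cfc_const_mul_id (4 / c ^ 2) (star A * A)]
  rw [h2, ContinuousLinearMap.le_def, ContinuousLinearMap.isPositive_iff_complex] at h1
  obtain ⟨-, h3⟩ := h1 x
  have h4 : inner ℂ ((D - (1 - (4 / c ^ 2) • (star A * A)) : H0 →L[ℂ] H0) x) x =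
      inner ℂ (D x) x - ((‖x‖ ^ 2 - 4 / c ^ 2 * ‖A x‖ ^ 2 : ℝ) : ℂ) := by
    have e1 : (D - (1 - (4 / c ^ 2) • (star A * A)) : H0 →L[ℂ] H0) x = D x - (x - (4 / c ^ 2 : ℝ) • (star A (A x))) := rfl
    have e2 : inner ℂ (star A (A x)) x = ((‖A x‖ : ℂ)) ^ 2 := by
      rw [ContinuousLinearMap.star_eq_adjoint, ContinuousLinearMap.adjoint_inner_left]
      exact inner_self_eq_norm_sq_to_K (A x)
    have e4 : inner ℂ x x = ((‖x‖ : ℂ)) ^ 2 := inner_self_eq_norm_sq_to_K x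
    have e3 : inner ℂ ((4 / c ^ 2 : ℝ) • (star A (A x))) x = ((4 / c ^ 2 : ℝ) : ℂ) * ((‖A x‖ : ℂ)) ^ 2 := by
      rw [show ((4 / c ^ 2 : ℝ) • (star A (A x))) = ((4 / c ^ 2 : ℝ) : ℂ) • (star A (A x)) from rfl,
        inner_smul_left, Complex.conj_ofReal, e2]
    rw [e1, inner_sub_left, inner_sub_left, e3, e4]
    push_cast; ring
  rw [h4, map_sub, RCLike.re_to_complex, RCLike.re_to_complex, Complex.ofReal_re] at h3
  have h5 : (inner ℂ (D x) x : ℂ).re ≤ ‖D x‖ * ‖x‖ :=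
    (Complex.re_le_norm _).trans (norm_inner_le_norm _ _)
  have h6 : 4 / c ^ 2 * ‖A x‖ ^ 2 ≤ 1 / 4 * ‖x‖ ^ 2 := by
    calc 4 / c ^ 2 * ‖A x‖ ^ 2 ≤ 4 / c ^ 2 * (c ^ 2 / 16 * ‖x‖ ^ 2) :=
          mul_le_mul_of_nonneg_left hx (by positivity)
      _ = 1 / 4 * ‖x‖ ^ 2 := by field_simp; ring
  rcases eq_or_lt_of_le (norm_nonneg x) with h | h
  · rw [← h]; simp
  · have h7 : 3 / 4 * ‖x‖ * ‖x‖ ≤ ‖D x‖ * ‖x‖ := by nlinarith
    exact le_of_mul_le_mul_right h7 h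

/-- polynomial approximation of the functional calculus, uniformly for operators of bounded norm -/
lemma cfc_approx {c L ε : ℝ} (hε : 0 < ε) : ∃ p : Polynomial ℂ, ∀ A : H0 →L[ℂ] H0, ‖star A * A‖ ≤ L →
    ‖cfc (ff c) (star A * A) - Polynomial.aeval (star A * A) p‖ ≤ ε := by
  obtain ⟨p, hp⟩ := exists_polynomial_near_of_continuousOn (-L) L (ff c) (ff_cont c).continuousOn ε hε
  refine ⟨p.map (algebraMap ℝ ℂ), fun A hA => ?_⟩
  have hsa : IsSelfAdjoint (star A * A) := IsSelfAdjoint.star_mul_self A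
  rw [Polynomial.aeval_map_algebraMap, ← cfc_polynomial p (star A * A),
    ← cfc_sub (ff c) p.eval (star A * A) (ff_cont c).continuousOn]
  apply norm_cfc_le hε.le
  intro s hs
  have h1 : ‖s‖ ≤ ‖star A * A‖ := by
    refine (spectrum.norm_le_norm_mul_of_mem hs).trans ?_
    exact mul_le_of_le_one_right (norm_nonneg _) ContinuousLinearMap.norm_id_le
  have h2 : s ∈ Set.Icc (-L) L := by
    rw [Real.norm_eq_abs] at h1
    exact abs_le.1 (h1.trans hA)
  have h3 := hp s h2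
  rw [Real.norm_eq_abs, abs_sub_comm]
  exact h3.le

/-- the functional calculus package -/
lemma cfc_package {c : ℝ} (hc : 0 < c) : ∃ Φ : (H0 →L[ℂ] H0) → (H0 →L[ℂ] H0),
    (∀ A, (∀ x, c * ‖x‖ ≤ ‖A x‖) → Φ A = 0) ∧
    (∀ A x, ‖A x‖ ^ 2 ≤ c ^ 2 / 16 * ‖x‖ ^ 2 → 3 / 4 * ‖x‖ ≤ ‖Φ A x‖) ∧
    (∀ L ε : ℝ, 0 < ε → ∃ p : Polynomial ℂ, ∀ A, ‖star A * A‖ ≤ L →
      ‖Φ A - Polynomial.aeval (star A * A) p‖ ≤ ε) ∧
    (∀ A W, Commute (star A * A) W → Commute (Φ A) W) := by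
  refine ⟨fun A => cfc (ff c) (star A * A), fun A hA => cfc_limit_zero A hA hc,
    fun A x hx => cfc_big hc A x hx, fun L ε hε => cfc_approx hε, fun A W h => ?_⟩
  exact h.cfc_real _

end general

end Pool.Agent.K7.H78.FS
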