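import Pool.Agent.K7.H78.FS.Bessel

set_option autoImplicit false

open Filter Topology MeasureTheory AddCircle
open scoped ComplexConjugate

namespace Pool.Agent.K7.H78.FS

/-- the peak function -/
noncomputable def q (c : ℝ) (t : Cir) : ℝ := 1 - (cs 1 t - c) ^ 2 / 4

lemma q_cont (c : ℝ) : Continuous (q c) :=
  continuous_const.sub ((((cs_cont 1).sub continuous_const).pow 2).div_const 4)

lemma q_nonneg {c : ℝ} (hc : |c| ≤ 1) (t : Cir) : 0 ≤ q c t := by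
  have h1 := cs_abs 1 t
  unfold q
  rw [abs_le] at hc h1
  nlinarith

lemma q_le_one (c : ℝ) (t : Cir) : q c t ≤ 1 := by
  unfold q
  have := sq_nonneg (cs 1 t - c)
  linarith

lemma q_far {c r : ℝ} (hr : 0 ≤ r) {t : Cir} (h : r ≤ |cs 1 t - c|) : q c t ≤ 1 - r ^ 2 / 4 := by
  unfold q
  have h1 : r ^ 2 ≤ (cs 1 t - c) ^ 2 := by
    rw [← sq_abs (cs 1 t - c)]
    exact pow_le_pow_left₀ hr h 2
  linarith

lemma q_near {c s : ℝ} {t : Cir} (h : |cs 1 t - c| ≤ s) : 1 - s ^ 2 / 4 ≤ q c t := by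
  unfold q
  have h1 : (cs 1 t - c) ^ 2 ≤ s ^ 2 := by
    rw [← sq_abs (cs 1 t - c)]
    exact pow_le_pow_left₀ (abs_nonneg _) h 2
  linarith

lemma exists_cs {c : ℝ} (hc : |c| ≤ 1) : ∃ t : Cir, cs 1 t = c := by
  refine ⟨((Real.arccos c / (2 * Real.pi) : ℝ) : Cir), ?_⟩
  unfold cs
  rw [fourier_coe_apply]
  have h : (2 * Real.pi * Complex.I * ((1 : ℤ) : ℂ) * ((Real.arccos c / (2 * Real.pi) : ℝ) : ℂ) / ((1 : ℝ) : ℂ)) =
      ((Real.arccos c : ℝ) : ℂ) * Complex.I := by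
    have : (Real.pi : ℂ) ≠ 0 := by exact_mod_cast Real.pi_ne_zero
    push_cast
    field_simp
  rw [h, Complex.exp_ofReal_mul_I_re, Real.cos_arccos (abs_le.1 hc).1 (abs_le.1 hc).2]

/-- concentration -/
lemma concentration {c s η : ℝ} (hc : |c| ≤ 1) (hs : 0 < s) (hs1 : s ≤ 1) (hη : 0 < η) :
    ∃ N' : ℕ, ∫ t in {t : Cir | s ≤ |cs 1 t - c|}, q c t ^ (2 * N') ∂mu ≤ η * ∫ t, q c t ^ (2 * N') ∂mu := by
  set ρ := 1 - s ^ 2 / 4 with hρ
  set σ := 1 - (s / 2) ^ 2 / 4 with hσ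
  have hρ0 : 0 < ρ := by rw [hρ]; nlinarith
  have hρσ : ρ < σ := by rw [hρ, hσ]; nlinarith
  have hσ0 : 0 < σ := hρ0.trans hρσ
  set U : Set Cir := {t : Cir | |cs 1 t - c| < s / 2} with hU
  have hUo : IsOpen U := isOpen_lt ((cs_cont 1).sub continuous_const).abs continuous_const
  obtain ⟨t0, ht0⟩ := exists_cs hc
  have hUn : U.Nonempty := ⟨t0, by
    change |cs 1 t0 - c| < s / 2
    rw [ht0, sub_self, abs_zero]; positivity⟩
  have hμU : 0 < (mu U).toReal :=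
    ENNReal.toReal_pos (hUo.measure_pos mu hUn).ne' (measure_ne_top _ _)
  obtain ⟨n, hn⟩ := exists_pow_lt_of_lt_one (mul_pos hη hμU) (show ρ / σ < 1 by rw [div_lt_one hσ0]; exact hρσ)
  refine ⟨n, ?_⟩
  have hn2 : (ρ / σ) ^ (2 * n) ≤ η * (mu U).toReal := by
    refine le_trans ?_ hn.le
    exact pow_le_pow_of_le_one (div_nonneg hρ0.le hσ0.le) (by rw [div_le_one hσ0]; exact hρσ.le) (by omega)
  have hint : Integrable (fun t => q c t ^ (2 * n)) mu := int_cont ((q_cont c).pow _)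
  have h1 : ∫ t in {t : Cir | s ≤ |cs 1 t - c|}, q c t ^ (2 * n) ∂mu ≤ ρ ^ (2 * n) := by
    have hm : MeasurableSet {t : Cir | s ≤ |cs 1 t - c|} :=
      (isClosed_le continuous_const ((cs_cont 1).sub continuous_const).abs).measurableSet
    have h2 : ∫ t in {t : Cir | s ≤ |cs 1 t - c|}, q c t ^ (2 * n) ∂mu ≤
        ∫ t in {t : Cir | s ≤ |cs 1 t - c|}, ρ ^ (2 * n) ∂mu := by
      apply setIntegral_mono_on hint.integrableOn (integrable_const _) hm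
      intro t ht
      exact pow_le_pow_left₀ (q_nonneg hc t) (q_far hs.le ht) _
    refine h2.trans ?_
    rw [setIntegral_const, smul_eq_mul]
    refine mul_le_of_le_one_left (pow_nonneg hρ0.le _) ?_
    exact measureReal_le_one
  have h3 : σ ^ (2 * n) * (mu U).toReal ≤ ∫ t, q c t ^ (2 * n) ∂mu := by
    have h4 : ∫ t in U, σ ^ (2 * n) ∂mu ≤ ∫ t in U, q c t ^ (2 * n) ∂mu := by
      apply setIntegral_mono_on (integrable_const _) hint.integrableOn hUo.measurableSet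
      intro t ht
      exact pow_le_pow_left₀ hσ0.le (q_near (le_of_lt ht)) _
    rw [setIntegral_const, smul_eq_mul] at h4
    have h5 : ∫ t in U, q c t ^ (2 * n) ∂mu ≤ ∫ t, q c t ^ (2 * n) ∂mu :=
      setIntegral_le_integral hint (ae_of_all _ fun t => pow_nonneg (q_nonneg hc t) _)
    rw [mul_comm]
    exact h4.trans h5
  have h6 : ρ ^ (2 * n) = (ρ / σ) ^ (2 * n) * σ ^ (2 * n) := by
    rw [div_pow]
    field_simp
  calc ∫ t in {t : Cir | s ≤ |cs 1 t - c|}, q c t ^ (2 * n) ∂mu ≤ ρ ^ (2 * n) := h1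
    _ = (ρ / σ) ^ (2 * n) * σ ^ (2 * n) := h6
    _ ≤ (η * (mu U).toReal) * σ ^ (2 * n) := mul_le_mul_of_nonneg_right hn2 (pow_nonneg hσ0.le _)
    _ = η * (σ ^ (2 * n) * (mu U).toReal) := by ring
    _ ≤ η * ∫ t, q c t ^ (2 * n) ∂mu := mul_le_mul_of_nonneg_left h3 hη.le

/-- the parameters of the construction -/
structure Dat (δ η : ℝ) where
  c : ℕ → ℝ
  r : ℕ → ℝ
  s : ℕ → ℝ
  N : ℕ → ℕ
  N' : ℕ → ℕ
  hc : ∀ k, |c k| ≤ 1
  hs : ∀ k, 0 < s k
  hsr : ∀ k, s k ≤ r k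
  sep : ∀ i k, i ≠ k → r i + r k ≤ |c i - c k|
  far : ∀ k, (1 - r k ^ 2 / 4) ^ N k ≤ δ * (1 / 2) ^ (k + 1)
  near : ∀ k, 1 - δ ≤ (1 - s k ^ 2 / 4) ^ N k
  conc : ∀ k, ∫ t in {t : Cir | s k ≤ |cs 1 t - c k|}, q (c k) t ^ (2 * N' k) ∂mu ≤
    η * ∫ t, q (c k) t ^ (2 * N' k) ∂mu

lemma exists_dat {δ η : ℝ} (hδ : 0 < δ) (hη : 0 < η) : Nonempty (Dat δ η) := by
  set c : ℕ → ℝ := fun k => 1 / ((k : ℝ) + 1) with hc
  set r : ℕ → ℝ := fun k => 1 / (2 * ((k : ℝ) + 1) * ((k : ℝ) + 2)) with hr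
  have hr0 : ∀ k, 0 < r k := fun k => by rw [hr]; positivity
  have hr1 : ∀ k, r k ≤ 1 := fun k => by
    rw [hr]
    change 1 / (2 * ((k : ℝ) + 1) * ((k : ℝ) + 2)) ≤ 1
    rw [div_le_one (by positivity)]
    have : (0 : ℝ) ≤ k := Nat.cast_nonneg k
    nlinarith
  have hc1 : ∀ k, |c k| ≤ 1 := fun k => by
    rw [hc]
    change |1 / ((k : ℝ) + 1)| ≤ 1
    rw [abs_of_pos (by positivity), div_le_one (by positivity)]
    have : (0 : ℝ) ≤ k := Nat.cast_nonneg k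
    linarith
  have hlt : ∀ i k : ℕ, i < k → r i + r k ≤ c i - c k := by
    intro i k hik
    have h1 : ((i : ℝ) + 1) ≤ k := by exact_mod_cast hik
    have hi : (0 : ℝ) ≤ i := Nat.cast_nonneg i
    have h2 : r k ≤ r i := by
      simp only [hr]
      apply one_div_le_one_div_of_le (by positivity)
      nlinarith
    have h3 : c k ≤ 1 / ((i : ℝ) + 2) := by
      simp only [hc]
      apply one_div_le_one_div_of_le (by positivity)
      linarith
    have h4 : c i - 1 / ((i : ℝ) + 2) = 2 * r i := by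
      simp only [hc, hr]
      field_simp
      ring
    linarith
  have hN : ∀ k, ∃ n : ℕ, (1 - r k ^ 2 / 4) ^ n ≤ δ * (1 / 2) ^ (k + 1) := by
    intro k
    have h1 : 1 - r k ^ 2 / 4 < 1 := by have := pow_pos (hr0 k) 2; linarith
    obtain ⟨n, hn⟩ := exists_pow_lt_of_lt_one (show 0 < δ * (1 / 2) ^ (k + 1) by positivity) h1
    exact ⟨n, hn.le⟩
  choose N hN using hN
  have hs : ∀ k, ∃ s : ℝ, 0 < s ∧ s ≤ r k ∧ 1 - δ ≤ (1 - s ^ 2 / 4) ^ N k := by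
    intro k
    set s := min (r k) (Real.sqrt (4 * δ / (N k + 1))) with hs
    have hs0 : 0 < s := lt_min (hr0 k) (Real.sqrt_pos.2 (by positivity))
    refine ⟨s, hs0, min_le_left _ _, ?_⟩
    have h1 : s ^ 2 ≤ 4 * δ / (N k + 1) := by
      have h2 : s ≤ Real.sqrt (4 * δ / (N k + 1)) := min_le_right _ _
      calc s ^ 2 ≤ (Real.sqrt (4 * δ / (N k + 1))) ^ 2 := pow_le_pow_left₀ hs0.le h2 2
        _ = _ := Real.sq_sqrt (by positivity)
    have h3 : s ≤ 1 := (min_le_left _ _).trans (hr1 k)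
    have h4 : (-2 : ℝ) ≤ -(s ^ 2 / 4) := by nlinarith
    have h5 := one_add_mul_le_pow h4 (N k)
    have h6 : (N k : ℝ) * (s ^ 2 / 4) ≤ δ := by
      have hN0 : (0 : ℝ) ≤ N k := Nat.cast_nonneg _
      have h7 : (N k : ℝ) * (s ^ 2 / 4) ≤ (N k + 1) * ((4 * δ / (N k + 1)) / 4) := by
        apply mul_le_mul (by linarith) (by linarith) (by positivity) (by positivity)
      refine h7.trans (le_of_eq ?_)
      field_simp
    calc 1 - δ ≤ 1 + (N k : ℝ) * -(s ^ 2 / 4) := by linarith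
      _ ≤ (1 + -(s ^ 2 / 4)) ^ N k := h5
      _ = _ := by ring_nf
  choose s hs0 hsr hnear using hs
  have hconc : ∀ k, ∃ N' : ℕ, ∫ t in {t : Cir | s k ≤ |cs 1 t - c k|}, q (c k) t ^ (2 * N') ∂mu ≤
    η * ∫ t, q (c k) t ^ (2 * N') ∂mu := fun k =>
      concentration (hc1 k) (hs0 k) ((hsr k).trans (hr1 k)) hη
  choose N' hN' using hconc
  refine ⟨⟨c, r, s, N, N', hc1, hs0, hsr, ?_, hN, hnear, hN'⟩⟩
  intro i k hik
  rcases lt_or_gt_of_ne hik with h | h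
  · exact (hlt i k h).trans (le_abs_self _)
  · rw [abs_sub_comm, add_comm]
    exact (hlt k i h).trans (le_abs_self _)

end Pool.Agent.K7.H78.FS
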