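import Pool.Agent.K7.H78.FS.Cfc

set_option autoImplicit false

open Filter Topology MeasureTheory AddCircle
open scoped ComplexConjugate

namespace Pool.Agent.K7.H78.FS

/-- the generating set of the finite section algebra -/
def Gen : Set (ℕ → Op) :=
  {G : ℕ → (lp (fun _ : ℕ => ℂ) 2 →L[ℂ] lp (fun _ : ℕ => ℂ) 2) |
    ∃ a : Lp ℂ ⊤ (volume : Measure (AddCircle (1 : ℝ))),
    ∃ T : lp (fun _ : ℕ => ℂ) 2 →L[ℂ] lp (fun _ : ℕ => ℂ) 2,
      (∀ j k : ℕ, (T (lp.single 2 k (1 : ℂ) : lp (fun _ : ℕ => ℂ) 2)) j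
          = fourierCoeff (⇑a : AddCircle (1 : ℝ) → ℂ) ((j : ℤ) - (k : ℤ))) ∧
      ∀ n, G n = Pn n * T * Pn n}

lemma vol_eq : (volume : Measure Cir) = mu := by
  rw [volume_eq_smul_haarAddCircle]; simp

lemma exists_vol (b : Li) : ∃ a : Lp ℂ ⊤ (volume : Measure (AddCircle (1 : ℝ))),
    ∀ s, fourierCoeff (⇑a) s = fourierCoeff (⇑b) s := by
  rw [vol_eq]
  exact ⟨b, fun _ => rfl⟩

lemma mem_Gen (b : Li) (S : Op) (hS : ∀ j k : ℕ, (S (e k)) j = fourierCoeff (⇑b) ((j : ℤ) - (k : ℤ))) :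
    (fun n => Pn n * S * Pn n) ∈ Gen := by
  obtain ⟨a, ha⟩ := exists_vol b
  refine ⟨a, S, fun j k => ?_, fun n => rfl⟩
  rw [ha]
  exact hS j k

lemma Pn_mem_Gen : (fun n => Pn n) ∈ Gen := by
  have h := mem_Gen (jj 1) 1 (fun j k => ?_)
  · convert h using 2 with n
    rw [mul_one, PP]
  · rw [fourierCoeff_congr_ae (coe_jj _)]
    have h1 : (⇑(1 : C(Cir, ℂ)) : Cir → ℂ) = fourier 0 := by
      ext t; simp
    rw [h1]
    have h2 : fourierCoeff (⇑(fourier 0 : C(Cir, ℂ))) ((j : ℤ) - (k : ℤ)) =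
        if ((j : ℤ) - (k : ℤ)) = 0 then 1 else 0 := by
      rw [fourierCoeff_fourier]
      simp [Pi.single_apply]
    rw [h2]
    change (e k) j = _
    rw [e_apply]
    by_cases hjk : j = k
    · subst hjk; simp
    · rw [if_neg hjk, if_neg (by omega)]

lemma T_mem_Gen (b : Li) : (fun n => Pn n * T b * Pn n) ∈ Gen := mem_Gen b _ (T_entry b)

/-- conjugate symbol -/
noncomputable def cj (b : Li) : Li := MemLp.toLp (fun t => conj (b t)) ((Lp.memLp b).star)

lemma cj_coe (b : Li) : ⇑(cj b) =ᵐ[mu] fun t => conj (b t) := MemLp.coeFn_toLp _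

lemma starT_mem_Gen (b : Li) : (fun n => Pn n * star (T b) * Pn n) ∈ Gen := by
  apply mem_Gen (cj b)
  intro j k
  rw [adjoint_entry, T_entry, fourierCoeff_congr_ae (cj_coe b)]
  unfold fourierCoeff
  rw [Complex.star_def, ← integral_conj]
  apply integral_congr_ae
  refine ae_of_all _ fun t => ?_
  change conj ((fourier (-((k : ℤ) - (j : ℤ))) t : ℂ) • b t) = (fourier (-((j : ℤ) - (k : ℤ))) t : ℂ) • conj (b t)
  rw [smul_eq_mul, smul_eq_mul, map_mul, ← fourier_neg]
  congr 3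
  ring

lemma norm_star_gen {H0 : Type*} [NormedAddCommGroup H0] [InnerProductSpace ℂ H0] [CompleteSpace H0]
    (A : H0 →L[ℂ] H0) : ‖star A‖ = ‖A‖ := by
  rw [ContinuousLinearMap.star_eq_adjoint, LinearIsometryEquiv.norm_map]

lemma norm_star_op (A : Op) : ‖star A‖ = ‖A‖ := norm_star_gen A

/-- polynomials in `B n` times `P n` lie in the algebra -/
lemma aeval_mem {𝒜 : NonUnitalSubalgebra ℂ (ℕ → Op)} {B P : ℕ → Op} (hB : B ∈ 𝒜) (hP : P ∈ 𝒜)
    (p : Polynomial ℂ) : (Polynomial.aeval B p) * P ∈ 𝒜 := by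
  induction p using Polynomial.induction_on' with
  | add p q hp hq =>
    rw [map_add, add_mul]
    exact 𝒜.add_mem hp hq
  | monomial n a =>
    have h1 : ∀ k : ℕ, B ^ k * P ∈ 𝒜 := by
      intro k
      induction k with
      | zero => rw [pow_zero, one_mul]; exact hP
      | succ k ih =>
        rw [pow_succ', mul_assoc]
        exact 𝒜.mul_mem hB ih
    rw [Polynomial.aeval_monomial, mul_assoc, Algebra.algebraMap_eq_smul_one, smul_mul_assoc, one_mul]
    exact 𝒜.smul_mem _ (h1 n)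

lemma aeval_pi (B : ℕ → Op) (p : Polynomial ℂ) (n : ℕ) : (Polynomial.aeval B p) n = Polynomial.aeval (B n) p := by
  have h := Polynomial.aeval_algHom_apply (Pi.evalAlgHom ℂ (fun _ : ℕ => Op) n) B p
  exact h.symm

theorem main :
    ¬ (∀ (P W : ℕ → (lp (fun _ : ℕ => ℂ) 2 →L[ℂ] lp (fun _ : ℕ => ℂ) 2)),
    (∀ (n : ℕ) (x : lp (fun _ : ℕ => ℂ) 2) (j : ℕ), (P n x) j = if j ≤ n then x j else 0) →
    (∀ (n : ℕ) (x : lp (fun _ : ℕ => ℂ) 2) (j : ℕ), (W n x) j = if j ≤ n then x (n - j) else 0) →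
    ∀ A : ℕ → (lp (fun _ : ℕ => ℂ) 2 →L[ℂ] lp (fun _ : ℕ => ℂ) 2),
      (∃ K K' : lp (fun _ : ℕ => ℂ) 2 →L[ℂ] lp (fun _ : ℕ => ℂ) 2,
        IsCompactOperator K ∧ IsCompactOperator K' ∧
        ∃ C : ℕ → (lp (fun _ : ℕ => ℂ) 2 →L[ℂ] lp (fun _ : ℕ => ℂ) 2),
          (∀ n, C n = P n * C n * P n) ∧
          Tendsto (fun n => ‖C n‖) atTop (𝓝 0) ∧
          ∀ n, A n = P n * K * P n + W n * K' * W n + C n)
      ↔
      ((∀ ε : ℝ, 0 < ε →
          ∃ B ∈ NonUnitalAlgebra.adjoin ℂ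
            {G : ℕ → (lp (fun _ : ℕ => ℂ) 2 →L[ℂ] lp (fun _ : ℕ => ℂ) 2) |
              ∃ a : Lp ℂ ⊤ (volume : Measure (AddCircle (1 : ℝ))),
              ∃ T : lp (fun _ : ℕ => ℂ) 2 →L[ℂ] lp (fun _ : ℕ => ℂ) 2,
                (∀ j k : ℕ, (T (lp.single 2 k (1 : ℂ) : lp (fun _ : ℕ => ℂ) 2)) j
                    = fourierCoeff (⇑a : AddCircle (1 : ℝ) → ℂ) ((j : ℤ) - (k : ℤ))) ∧
                ∀ n, G n = P n * T * P n},
            ∀ n, ‖A n - B n‖ ≤ ε) ∧
       (∃ K : lp (fun _ : ℕ => ℂ) 2 →L[ℂ] lp (fun _ : ℕ => ℂ) 2,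
          IsCompactOperator K ∧ ∀ x, Tendsto (fun n => A n x) atTop (𝓝 (K x))) ∧
       (∃ K : lp (fun _ : ℕ => ℂ) 2 →L[ℂ] lp (fun _ : ℕ => ℂ) 2,
          IsCompactOperator K ∧
          ∀ x, Tendsto (fun n => (W n * A n * W n) x) atTop (𝓝 (K x))))) := by
  intro hmain
  -- parameters
  set c : ℝ := Real.exp (-8) with hc
  have hc0 : 0 < c := Real.exp_pos _
  have hc1 : c ≤ 1 := by rw [hc]; exact Real.exp_le_one_iff.2 (by norm_num)
  set δ : ℝ := c / 100 with hδ
  set η : ℝ := c ^ 2 / 1000 with hη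
  have hδ0 : 0 < δ := by positivity
  have hη0 : 0 < η := by positivity
  obtain ⟨D⟩ := exists_dat hδ0 hη0
  obtain ⟨C, hC0, hCpi, hJ⟩ := exists_C
  have hC4 : C ≤ 4 := hCpi.trans Real.pi_le_four
  have hK : C * (1 + δ) ≤ 8 := by
    have h1 : δ ≤ 1 := by rw [hδ]; linarith
    nlinarith
  set a : Li := D.sL hδ0.le hC0 with ha
  have hco : ⇑a =ᵐ[mu] D.sy C := toLi_coe _ _ _
  set T0 : Op := T a with hT0
  have hlow : ∀ x, c * ‖x‖ ≤ ‖T0 x‖ := fun x => D.T_lower hδ0.le hC0 hK x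
  set A : ℕ → Op := fun n => Pn n * T0 * Pn n with hA
  have hAapp : ∀ n, A n = Pn n * T0 * Pn n := fun n => rfl
  have hsA : ∀ n, star (A n) = Pn n * star T0 * Pn n := by
    intro n
    rw [hAapp, star_mul, star_mul, star_Pn, mul_assoc]
  set B : ℕ → Op := fun n => star (A n) * A n with hB
  have hBapp : ∀ n, B n = star (A n) * A n := fun n => rfl
  set L : ℝ := ‖T0‖ ^ 2 with hL
  have hAn : ∀ n, ‖A n‖ ≤ ‖T0‖ := by
    intro n
    refine ContinuousLinearMap.opNorm_le_bound _ (norm_nonneg _) fun x => ?_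
    rw [hAapp, mul_app, mul_app]
    have h1 : ‖Pn n x‖ ≤ ‖x‖ := ((Pn n).le_opNorm x).trans (mul_le_of_le_one_left (norm_nonneg _) (norm_Pn_le n))
    refine ((Pn n).le_opNorm _).trans ((mul_le_of_le_one_left (norm_nonneg _) (norm_Pn_le n)).trans ?_)
    exact (T0.le_opNorm _).trans (mul_le_mul_of_nonneg_left h1 (norm_nonneg _))
  have hBn : ∀ n, ‖B n‖ ≤ L := by
    intro n
    rw [hBapp, hL, sq]
    refine (norm_mul_le _ _).trans ?_
    have h1 : ‖star (A n)‖ = ‖A n‖ := norm_star_op _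
    rw [h1]
    exact mul_le_mul (hAn n) (hAn n) (norm_nonneg _) (norm_nonneg _)
  have hB0 : ‖star T0 * T0‖ ≤ L := by
    rw [hL, sq]
    refine (norm_mul_le _ _).trans ?_
    have h1 : ‖star T0‖ = ‖T0‖ := norm_star_op _
    rw [h1]
  obtain ⟨Φ, hΦ1, hΦ2, hΦ3, hΦ4⟩ := cfc_package (H0 := E) hc0
  have hΦT : Φ T0 = 0 := hΦ1 T0 hlow
  set DD : ℕ → Op := fun n => Φ (A n) * Pn n with hDD
  have hDapp : ∀ n, DD n = Φ (A n) * Pn n := fun n => rfl
  -- strong convergence of `B n`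
  have hPn : ∀ x, Tendsto (fun n => Pn n x) atTop (𝓝 ((1 : Op) x)) := Pn_tendsto
  have hAs : ∀ x, Tendsto (fun n => A n x) atTop (𝓝 (T0 x)) := by
    intro x
    have h1 := sot_mul (S := fun n => Pn n) (R := fun _ => T0) (S' := 1) (R' := T0) norm_Pn_le hPn
      (fun x => tendsto_const_nhds)
    have h2 := sot_mul (S := fun n => Pn n * T0) (R := fun n => Pn n) (S' := 1 * T0) (R' := 1) (L := ‖T0‖)
      (fun n => (norm_mul_le _ _).trans (mul_le_of_le_one_left (norm_nonneg _) (norm_Pn_le n))) h1 hPn x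
    simp only [hAapp]
    simpa using h2
  have hsAs : ∀ x, Tendsto (fun n => star (A n) x) atTop (𝓝 (star T0 x)) := by
    intro x
    have h1 := sot_mul (S := fun n => Pn n) (R := fun _ => star T0) (S' := 1) (R' := star T0) norm_Pn_le hPn
      (fun x => tendsto_const_nhds)
    have h2 := sot_mul (S := fun n => Pn n * star T0) (R := fun n => Pn n) (S' := 1 * star T0) (R' := 1)
      (L := ‖star T0‖)
      (fun n => (norm_mul_le _ _).trans (mul_le_of_le_one_left (norm_nonneg _) (norm_Pn_le n))) h1 hPn x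
    simp only [hsA]
    simpa using h2
  have hBs : ∀ x, Tendsto (fun n => B n x) atTop (𝓝 ((star T0 * T0) x)) := by
    intro x
    refine sot_mul (S := fun n => star (A n)) (R := fun n => A n) (L := ‖T0‖) (fun n => ?_) hsAs hAs x
    have h1 : ‖star (A n)‖ = ‖A n‖ := norm_star_op _
    change ‖star (A n)‖ ≤ ‖T0‖
    rw [h1]
    exact hAn n
  have hDs : ∀ x, Tendsto (fun n => DD n x) atTop (𝓝 0) := by
    intro x
    rw [Metric.tendsto_atTop]
    intro ε hε
    obtain ⟨p, hp⟩ := hΦ3 L (ε / (4 * (‖x‖ + 1))) (by positivity)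
    have h0 := hp T0 hB0
    rw [hΦT, zero_sub, norm_neg] at h0
    have hlim : Tendsto (fun n => (Polynomial.aeval (B n) p * Pn n) x) atTop
        (𝓝 ((Polynomial.aeval (star T0 * T0) p) x)) := by
      have h1 := sot_aeval (S := B) hBn hBs p
      have h2 : ∃ L' : ℝ, ∀ n, ‖Polynomial.aeval (B n) p‖ ≤ L' := by
        refine ⟨∑ i ∈ Finset.range (p.natDegree + 1), ‖p.coeff i‖ * L ^ i, fun n => ?_⟩
        rw [Polynomial.aeval_eq_sum_range]
        refine (norm_sum_le _ _).trans (Finset.sum_le_sum fun i _ => ?_)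
        rw [norm_smul]
        refine mul_le_mul_of_nonneg_left ?_ (norm_nonneg _)
        rcases Nat.eq_zero_or_pos i with hi | hi
        · subst hi
          rw [pow_zero, pow_zero]
          exact ContinuousLinearMap.norm_id_le
        · exact (norm_pow_le' _ hi).trans (pow_le_pow_left₀ (norm_nonneg _) (hBn n) _)
      obtain ⟨L', hL'⟩ := h2
      have h3 := sot_mul (S := fun n => Polynomial.aeval (B n) p) (R := fun n => Pn n) hL' h1 hPn x
      simpa using h3
    obtain ⟨N, hN⟩ := Metric.tendsto_atTop.1 hlim (ε / 4) (by positivity)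
    refine ⟨N, fun n hn => ?_⟩
    have h1 := hN n hn
    rw [dist_eq_norm] at h1 ⊢
    rw [sub_zero]
    have h2 : DD n x = (Φ (A n) - Polynomial.aeval (B n) p) (Pn n x) +
        (((Polynomial.aeval (B n) p * Pn n) x - (Polynomial.aeval (star T0 * T0) p) x) +
          (Polynomial.aeval (star T0 * T0) p) x) := by
      rw [hDapp, mul_app, mul_app]
      have : (Φ (A n) - Polynomial.aeval (B n) p) (Pn n x) =
        Φ (A n) (Pn n x) - (Polynomial.aeval (B n) p) (Pn n x) := rfl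
      rw [this]
      abel
    have hx0 : 0 ≤ ‖x‖ := norm_nonneg x
    have hPx : ‖Pn n x‖ ≤ ‖x‖ := ((Pn n).le_opNorm x).trans (mul_le_of_le_one_left (norm_nonneg _) (norm_Pn_le n))
    have h3 : ‖(Φ (A n) - Polynomial.aeval (B n) p) (Pn n x)‖ ≤ ε / 4 := by
      refine (ContinuousLinearMap.le_opNorm _ _).trans ?_
      refine (mul_le_mul (hp (A n) (hBn n)) hPx (norm_nonneg _) (by positivity)).trans ?_
      rw [div_mul_eq_mul_div, div_le_div_iff₀ (by positivity) (by positivity)]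
      nlinarith
    have h4 : ‖(Polynomial.aeval (star T0 * T0) p) x‖ ≤ ε / 4 := by
      refine (ContinuousLinearMap.le_opNorm _ _).trans ?_
      refine (mul_le_mul_of_nonneg_right h0 hx0).trans ?_
      rw [div_mul_eq_mul_div, div_le_div_iff₀ (by positivity) (by positivity)]
      nlinarith
    rw [h2]
    calc _ ≤ _ := norm_add_le _ _
      _ ≤ ε / 4 + (ε / 4 + ε / 4) := by
        apply add_le_add h3
        exact (norm_add_le _ _).trans (add_le_add h1.le h4)
      _ < ε := by linarith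
  -- commutation with `W n`
  have hWTW : ∀ n, Wn n * T0 * Wn n = A n := by
    intro n
    apply ext_entry
    intro j k
    rw [hAapp, mul_app, mul_app, mul_app, mul_app, Wn_apply, Pn_apply, Wn_e, Pn_e]
    by_cases hj : j ≤ n
    · rw [if_pos hj, if_pos hj]
      by_cases hk : k ≤ n
      · rw [if_pos hk, if_pos hk, hT0, T_entry, T_entry, fourierCoeff_congr_ae hco, ← D.coeff_even]
        congr 1
        push_cast [Nat.cast_sub hj, Nat.cast_sub hk]
        ring
      · rw [if_neg hk, if_neg hk, map_zero]; rfl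
    · rw [if_neg hj, if_neg hj]
  have hWA : ∀ n, Wn n * A n = A n * Wn n := by
    intro n
    have h1 : Wn n * (Wn n * T0 * Wn n) * Wn n = A n := by
      calc Wn n * (Wn n * T0 * Wn n) * Wn n = (Wn n * Wn n) * T0 * (Wn n * Wn n) := by noncomm_ring
        _ = A n := by rw [WW]
    have h2 : Wn n * A n * Wn n = A n := by rw [← hWTW n, h1, hWTW n]
    calc Wn n * A n = Wn n * (A n * Pn n) := by rw [hAapp, mul_assoc (Pn n * T0), PP]
      _ = (Wn n * A n * Wn n) * Wn n := by rw [← WW]; noncomm_ring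
      _ = A n * Wn n := by rw [h2]
  have hWsA : ∀ n, Wn n * star (A n) = star (A n) * Wn n := by
    intro n
    have h1 : star (Wn n * A n) = star (A n * Wn n) := congrArg star (hWA n)
    have e1 : star (Wn n * A n) = star (A n) * star (Wn n) := star_mul _ _
    have e2 : star (A n * Wn n) = star (Wn n) * star (A n) := star_mul _ _
    rw [e1, e2, star_Wn] at h1
    exact h1.symm
  have hWB : ∀ n, Commute (B n) (Wn n) := by
    intro n
    change B n * Wn n = Wn n * B n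
    rw [hBapp, mul_assoc, ← hWA, ← mul_assoc, ← hWsA, mul_assoc]
  have hWD : ∀ n, Wn n * DD n * Wn n = DD n := by
    intro n
    have h1 : Φ (A n) * Wn n = Wn n * Φ (A n) := hΦ4 (A n) (Wn n) (hWB n)
    calc Wn n * DD n * Wn n = (Wn n * Φ (A n)) * (Pn n * Wn n) := by rw [hDapp]; noncomm_ring
      _ = Φ (A n) * (Wn n * Wn n) := by rw [← h1, PW]; noncomm_ring
      _ = DD n := by rw [WW]
  -- apply the hypothesis
  have hiff := hmain Pn Wn Pn_apply Wn_apply DD
  have hcomp0 : IsCompactOperator (0 : Op) := isCompactOperator_zero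
  obtain ⟨K, K', hKc, hK'c, Cn, -, hCn, hdec⟩ := hiff.2 (by
    refine ⟨fun ε hε => ?_, ⟨0, hcomp0, fun x => by simpa using hDs x⟩,
      ⟨0, hcomp0, fun x => by simp only [hWD]; simpa using hDs x⟩⟩
    obtain ⟨p, hp⟩ := hΦ3 L ε hε
    set 𝒜 := NonUnitalAlgebra.adjoin ℂ Gen with h𝒜
    have hAmem : A ∈ 𝒜 := NonUnitalAlgebra.subset_adjoin ℂ (T_mem_Gen a)
    have hsAmem : (fun n => star (A n)) ∈ 𝒜 := by
      have h1 : (fun n => star (A n)) = fun n => Pn n * star T0 * Pn n := by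
        funext n; exact hsA n
      rw [h1]
      exact NonUnitalAlgebra.subset_adjoin ℂ (starT_mem_Gen a)
    have hBmem : B ∈ 𝒜 := 𝒜.mul_mem hsAmem hAmem
    have hPmem : (fun n => Pn n) ∈ 𝒜 := NonUnitalAlgebra.subset_adjoin ℂ Pn_mem_Gen
    refine ⟨(Polynomial.aeval B p) * (fun n => Pn n), aeval_mem hBmem hPmem p, fun n => ?_⟩
    have h1 : ((Polynomial.aeval B p) * (fun n => Pn n) : ℕ → Op) n = Polynomial.aeval (B n) p * Pn n := by
      change (Polynomial.aeval B p) n * Pn n = _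
      rw [aeval_pi]
    rw [h1, hDapp, ← sub_mul]
    refine (norm_mul_le _ _).trans ?_
    exact (mul_le_of_le_one_right (norm_nonneg _) (norm_Pn_le n)).trans (hp (A n) (hBn n)))
  -- `K = 0`
  have hCx : ∀ x, Tendsto (fun n => Cn n x) atTop (𝓝 0) := by
    intro x
    apply squeeze_zero_norm (a := fun n => ‖Cn n‖ * ‖x‖) (fun n => (Cn n).le_opNorm x)
    have := hCn.mul_const ‖x‖
    simpa using this
  have hWK' : ∀ (R : Op), IsCompactOperator R → ∀ x, Tendsto (fun n => (Wn n * R * Wn n) x) atTop (𝓝 0) := by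
    intro R hR x
    apply squeeze_zero_norm (a := fun n => ‖R (Wn n x)‖)
    · intro n
      rw [mul_app, mul_app]
      exact ((Wn n).le_opNorm _).trans (mul_le_of_le_one_left (norm_nonneg _) (norm_Wn_le n))
    · have := (compact_Wn hR x).norm
      simpa using this
  have hPKP : ∀ (R : Op) x, Tendsto (fun n => (Pn n * R * Pn n) x) atTop (𝓝 (R x)) := by
    intro R x
    have h1 := sot_mul (S := fun n => Pn n) (R := fun _ => R) (S' := 1) (R' := R) norm_Pn_le hPn
      (fun x => tendsto_const_nhds)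
    have h2 := sot_mul (S := fun n => Pn n * R) (R := fun n => Pn n) (S' := 1 * R) (R' := 1) (L := ‖R‖)
      (fun n => (norm_mul_le _ _).trans (mul_le_of_le_one_left (norm_nonneg _) (norm_Pn_le n))) h1 hPn x
    simpa using h2
  have hK0 : K = 0 := by
    ext1 x
    have h1 : Tendsto (fun n => DD n x) atTop (𝓝 (K x + 0 + 0)) := by
      have h2 := ((hPKP K x).add (hWK' K' hK'c x)).add (hCx x)
      refine h2.congr fun n => ?_
      rw [hdec n]; rfl
    rw [add_zero, add_zero] at h1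
    exact tendsto_nhds_unique h1 (hDs x)
  have hK'0 : K' = 0 := by
    ext1 x
    have h1 : Tendsto (fun n => DD n x) atTop (𝓝 (K' x + 0)) := by
      have h3 : Tendsto (fun n => (Wn n * Cn n * Wn n) x) atTop (𝓝 0) := by
        apply squeeze_zero_norm (a := fun n => ‖Cn n‖ * ‖x‖)
        · intro n
          rw [mul_app, mul_app]
          refine ((Wn n).le_opNorm _).trans ((mul_le_of_le_one_left (norm_nonneg _) (norm_Wn_le n)).trans ?_)
          refine ((Cn n).le_opNorm _).trans (mul_le_mul_of_nonneg_left ?_ (norm_nonneg _))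
          exact ((Wn n).le_opNorm x).trans (mul_le_of_le_one_left (norm_nonneg _) (norm_Wn_le n))
        · have := hCn.mul_const ‖x‖
          simpa using this
      have h2 := (hPKP K' x).add h3
      refine h2.congr fun n => ?_
      have h4 : DD n = Pn n * K' * Pn n + Wn n * Cn n * Wn n := by
        rw [← hWD n, hdec n, hK0]
        calc Wn n * (Pn n * 0 * Pn n + Wn n * K' * Wn n + Cn n) * Wn n
            = (Wn n * Wn n) * K' * (Wn n * Wn n) + Wn n * Cn n * Wn n := by noncomm_ring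
          _ = _ := by rw [WW]
      rw [h4]; rfl
    rw [add_zero] at h1
    exact tendsto_nhds_unique h1 (hDs x)
  have hDC : ∀ n, DD n = Cn n := by
    intro n
    rw [hdec n, hK0, hK'0]
    simp
  -- contradiction
  have hsmall : 64 * δ ^ 2 + 4 * η ≤ c ^ 2 / 16 := by
    rw [hδ, hη]; nlinarith [sq_nonneg c]
  have hbig : ∀ k, 3 / 4 ≤ ‖DD (D.m k - 1)‖ := by
    intro k
    obtain ⟨x, hx0, hPx, hxs⟩ := D.approx_null hδ0.le hC0 hC4 hJ k
    have hxn : 0 < ‖x‖ := norm_pos_iff.2 hx0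
    have h1 : ‖A (D.m k - 1) x‖ ^ 2 ≤ c ^ 2 / 16 * ‖x‖ ^ 2 := by
      rw [hAapp, mul_app, mul_app, hPx]
      exact hxs.trans (mul_le_mul_of_nonneg_right hsmall (by positivity))
    have h2 := hΦ2 _ x h1
    have h3 : DD (D.m k - 1) x = Φ (A (D.m k - 1)) x := by
      rw [hDapp, mul_app, hPx]
    rw [← h3] at h2
    have h4 := h2.trans ((DD (D.m k - 1)).le_opNorm x)
    exact le_of_mul_le_mul_right h4 hxn
  have hmk : Tendsto (fun k => D.m k - 1) atTop atTop := by
    apply tendsto_atTop_mono (f := fun k => k) _ tendsto_id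
    intro k
    unfold Dat.m
    omega
  have hlim := hCn.comp hmk
  have h5 : ∀ k, 3 / 4 ≤ (fun n => ‖Cn n‖) (D.m k - 1) := by
    intro k
    change 3 / 4 ≤ ‖Cn (D.m k - 1)‖
    rw [← hDC]
    exact hbig k
  have h6 : (3 / 4 : ℝ) ≤ 0 := ge_of_tendsto' hlim h5
  norm_num at h6

end Pool.Agent.K7.H78.FS
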