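import Pool.Agent.K7.H78.FS.Basic

set_option autoImplicit false

open Filter Topology MeasureTheory AddCircle
open scoped ComplexConjugate

namespace Pool.Agent.K7.H78.FS

/-- The circle. -/
abbrev Cir : Type := AddCircle (1 : ℝ)

noncomputable abbrev mu : Measure Cir := haarAddCircle

abbrev H : Type := Lp ℂ 2 mu

abbrev Li : Type := Lp ℂ ⊤ mu

/-- Multiplication operators. -/
noncomputable def M : Li →L[ℂ] H →L[ℂ] H := (ContinuousLinearMap.mul ℂ ℂ).holderL mu ⊤ 2 2

lemma M_coe (a : Li) (f : H) : ⇑(M a f) =ᵐ[mu] fun t => a t * f t := by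
  have := (ContinuousLinearMap.mul ℂ ℂ).coeFn_holder (r := 2) a f
  exact this

/-- The analytic embedding. -/
noncomputable def V : E →ₗᵢ[ℂ] H :=
  ((orthonormal_fourier (T := 1)).comp (fun n : ℕ => (n : ℤ)) Nat.cast_injective).orthogonalFamily.linearIsometry

lemma V_e (k : ℕ) : V (e k) = fourierLp 2 (k : ℤ) := by
  unfold V e
  rw [OrthogonalFamily.linearIsometry_apply_single]
  simp

/-- Toeplitz operators. -/
noncomputable def T (a : Li) : E →L[ℂ] E :=
  (ContinuousLinearMap.adjoint V.toContinuousLinearMap) ∘L (M a) ∘L V.toContinuousLinearMap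

lemma T_app (a : Li) (x : E) : T a x = ContinuousLinearMap.adjoint V.toContinuousLinearMap (M a (V x)) := rfl

lemma inner_T (a : Li) (x y : E) : inner ℂ y (T a x) = inner ℂ (V y) (M a (V x)) := by
  rw [T_app, ContinuousLinearMap.adjoint_inner_right]; rfl

lemma T_entry (a : Li) (j k : ℕ) : (T a (e k)) j = fourierCoeff (⇑a) ((j : ℤ) - (k : ℤ)) := by
  rw [← inner_e, inner_T, V_e, V_e, MeasureTheory.L2.inner_def]
  unfold fourierCoeff
  apply integral_congr_ae
  filter_upwards [M_coe a (fourierLp 2 (k : ℤ)), coeFn_fourierLp (T := 1) 2 (k : ℤ),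
    coeFn_fourierLp (T := 1) 2 (j : ℤ)] with t h1 h2 h3
  rw [h1, h2, h3, RCLike.inner_apply, smul_eq_mul]
  rw [show -((j : ℤ) - (k : ℤ)) = k + (-j) by ring, fourier_add, fourier_neg]
  ring

lemma norm_M_le (a : Li) : ‖M a‖ ≤ ‖a‖ := by
  refine ContinuousLinearMap.opNorm_le_bound _ (norm_nonneg _) fun f => ?_
  have h1 := (ContinuousLinearMap.mul ℂ ℂ).norm_holder_apply_apply_le (r := 2) a f
  refine h1.trans ?_
  have h2 : ‖ContinuousLinearMap.mul ℂ ℂ‖ ≤ 1 := ContinuousLinearMap.opNorm_mul_le ℂ ℂ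
  have h3 : 0 ≤ ‖a‖ * ‖f‖ := by positivity
  rw [mul_assoc]
  exact mul_le_of_le_one_left h3 h2

lemma norm_adj_V_le (f : H) : ‖ContinuousLinearMap.adjoint V.toContinuousLinearMap f‖ ≤ ‖f‖ := by
  refine (ContinuousLinearMap.le_opNorm _ _).trans ?_
  rw [LinearIsometryEquiv.norm_map]
  exact mul_le_of_le_one_left (norm_nonneg _) V.norm_toContinuousLinearMap_le

lemma adj_V_V (x : E) : ContinuousLinearMap.adjoint V.toContinuousLinearMap (V x) = x := by
  apply ext_inner_e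
  intro j
  rw [ContinuousLinearMap.adjoint_inner_right]
  exact V.inner_map_map _ _

lemma norm_T_le (a : Li) : ‖T a‖ ≤ ‖a‖ := by
  refine ContinuousLinearMap.opNorm_le_bound _ (norm_nonneg _) fun x => ?_
  rw [T_app]
  refine (norm_adj_V_le _).trans (((M a).le_opNorm _).trans ?_)
  rw [V.norm_map]
  exact mul_le_mul_of_nonneg_right (norm_M_le a) (norm_nonneg _)

/-- Bounded measurable functions as elements of `L^∞`. -/
noncomputable def toLi (a : Cir → ℂ) (hm : AEStronglyMeasurable a mu) {C : ℝ} (hC : ∀ t, ‖a t‖ ≤ C) : Li :=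
  (memLp_top_of_bound hm C (ae_of_all _ hC)).toLp a

lemma toLi_coe (a : Cir → ℂ) (hm : AEStronglyMeasurable a mu) {C : ℝ} (hC : ∀ t, ‖a t‖ ≤ C) :
    ⇑(toLi a hm hC) =ᵐ[mu] a := MemLp.coeFn_toLp _

lemma norm_toLi_le (a : Cir → ℂ) (hm : AEStronglyMeasurable a mu) {C : ℝ} (hC : ∀ t, ‖a t‖ ≤ C) :
    ‖toLi a hm hC‖ ≤ C := by
  have hC0 : 0 ≤ C := (norm_nonneg _).trans (hC 0)
  have := Lp.norm_le_of_ae_bound (f := toLi a hm hC) (C := C) (p := ⊤) hC0 (by
    filter_upwards [toLi_coe a hm hC] with t ht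
    rw [ht]; exact hC t)
  simpa using this

/-- Continuous functions as elements of `L^∞`. -/
noncomputable def jj : C(Cir, ℂ) →L[ℂ] Li := ContinuousMap.toLp ⊤ mu ℂ

lemma coe_jj (g : C(Cir, ℂ)) : ⇑(jj g) =ᵐ[mu] g := ContinuousMap.coeFn_toLp _ _

lemma norm_jj_le (g : C(Cir, ℂ)) : ‖jj g‖ ≤ ‖g‖ := by
  have := Lp.norm_le_of_ae_bound (f := jj g) (C := ‖g‖) (p := ⊤) (norm_nonneg _) (by
    filter_upwards [coe_jj g] with t ht
    rw [ht]; exact g.norm_coe_le_norm t)
  simpa using this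

lemma M_jj_mul (g h : C(Cir, ℂ)) (f : H) : M (jj (g * h)) f = M (jj g) (M (jj h) f) := by
  apply Lp.ext
  filter_upwards [M_coe (jj (g * h)) f, M_coe (jj g) (M (jj h) f), M_coe (jj h) f, coe_jj (g * h),
    coe_jj g, coe_jj h] with t h1 h2 h3 h4 h5 h6
  rw [h1, h2, h3, h4, h5, h6, ContinuousMap.mul_apply, mul_assoc]

lemma M_jj_one (f : H) : M (jj 1) f = f := by
  apply Lp.ext
  filter_upwards [M_coe (jj 1) f, coe_jj 1] with t h1 h2
  rw [h1, h2]; simp

/-- the adjoint of a multiplication operator -/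
lemma inner_M (g : C(Cir, ℂ)) (f h : H) : inner ℂ (M (jj (star g)) f) h = inner ℂ f (M (jj g) h) := by
  rw [MeasureTheory.L2.inner_def, MeasureTheory.L2.inner_def]
  apply integral_congr_ae
  filter_upwards [M_coe (jj (star g)) f, M_coe (jj g) h, coe_jj (star g), coe_jj g] with t h1 h2 h3 h4
  rw [h1, h2, h3, h4, RCLike.inner_apply, RCLike.inner_apply]
  simp
  ring

end Pool.Agent.K7.H78.FS
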