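import Pool.Agent.K7.H78.FS.Constr

set_option autoImplicit false

open Filter Topology MeasureTheory AddCircle
open scoped ComplexConjugate

namespace Pool.Agent.K7.H78.FS

namespace Dat

variable {δ η : ℝ} (D : Dat δ η)

/-- frequencies -/
def m (k : ℕ) : ℕ := 4 * D.N' k + 2 * D.N k + k + 1

/-- bumps -/
noncomputable def u (k : ℕ) (t : Cir) : ℝ := q (D.c k) t ^ D.N k

lemma u_nonneg (k : ℕ) (t : Cir) : 0 ≤ D.u k t := pow_nonneg (q_nonneg (D.hc k) t) _

lemma u_le_one (k : ℕ) (t : Cir) : D.u k t ≤ 1 := pow_le_one₀ (q_nonneg (D.hc k) t) (q_le_one _ t)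

lemma u_cont (k : ℕ) : Continuous (D.u k) := (q_cont _).pow _

lemma r_nonneg (k : ℕ) : 0 ≤ D.r k := (D.hs k).le.trans (D.hsr k)

lemma u_far {k : ℕ} {t : Cir} (h : D.r k ≤ |cs 1 t - D.c k|) : D.u k t ≤ δ * (1 / 2) ^ (k + 1) :=
  (pow_le_pow_left₀ (q_nonneg (D.hc k) t) (q_far (D.r_nonneg k) h) _).trans (D.far k)

lemma key_of {k0 : ℕ} {t : Cir} (h : |cs 1 t - D.c k0| < D.r k0) (k : ℕ) (hk : k ≠ k0) :
    D.u k t ≤ δ * (1 / 2) ^ (k + 1) := by
  apply D.u_far
  have h1 := D.sep k k0 hk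
  have h2 : |D.c k - D.c k0| ≤ |cs 1 t - D.c k| + |cs 1 t - D.c k0| := by
    have h3 : D.c k - D.c k0 = (cs 1 t - D.c k0) - (cs 1 t - D.c k) := by ring
    rw [h3]
    refine (abs_sub _ _).trans ?_
    linarith
  linarith

lemma key (t : Cir) : ∃ k0, ∀ k, k ≠ k0 → D.u k t ≤ δ * (1 / 2) ^ (k + 1) := by
  by_cases h : ∃ k0, |cs 1 t - D.c k0| < D.r k0
  · obtain ⟨k0, h0⟩ := h
    exact ⟨k0, fun k hk => D.key_of h0 k hk⟩
  · push Not at h
    exact ⟨0, fun k _ => D.u_far (h k)⟩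

lemma hasSum_geo (δ : ℝ) : HasSum (fun k : ℕ => δ * (1 / 2 : ℝ) ^ (k + 1)) δ := by
  have h2 : HasSum (fun k : ℕ => (1 / 2 : ℝ) ^ k) 2 := hasSum_geometric_two
  have h3 := h2.mul_left (δ * (1 / 2))
  have h4 : δ * (1 / 2) * 2 = δ := by ring
  rw [h4] at h3
  have h5 : (fun k : ℕ => δ * (1 / 2 : ℝ) ^ (k + 1)) = fun k : ℕ => δ * (1 / 2) * (1 / 2 : ℝ) ^ k := by
    funext k
    rw [pow_succ]
    ring
  rw [h5]
  exact h3

/-- sums of the bumps other than the dominant one -/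
lemma summable_u (hδ : 0 ≤ δ) (t : Cir) : Summable (fun k => D.u k t) := by
  obtain ⟨k0, h0⟩ := D.key t
  have h1 : Summable (fun k : ℕ => (if k = k0 then (1 : ℝ) else 0) + δ * (1 / 2 : ℝ) ^ (k + 1)) :=
    (hasSum_ite_eq k0 (1 : ℝ)).summable.add (hasSum_geo δ).summable
  refine Summable.of_nonneg_of_le (fun k => D.u_nonneg k t) (fun k => ?_) h1
  by_cases hk : k = k0
  · rw [if_pos hk]
    have := D.u_le_one k t
    have : 0 ≤ δ * (1 / 2 : ℝ) ^ (k + 1) := by positivity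
    linarith
  · rw [if_neg hk, zero_add]
    exact h0 k hk

lemma sum_u_le (hδ : 0 ≤ δ) (t : Cir) (n : ℕ) : ∑ k ∈ Finset.range n, D.u k t ≤ 1 + δ := by
  obtain ⟨k0, h0⟩ := D.key t
  have h1 : HasSum (fun k : ℕ => (if k = k0 then (1 : ℝ) else 0) + δ * (1 / 2 : ℝ) ^ (k + 1)) (1 + δ) :=
    (hasSum_ite_eq k0 (1 : ℝ)).add (hasSum_geo δ)
  refine (Finset.sum_le_sum (g := fun k : ℕ => (if k = k0 then (1 : ℝ) else 0) + δ * (1 / 2 : ℝ) ^ (k + 1))
    fun k _ => ?_).trans (h1.summable.sum_le_tsum _ (fun k _ => ?_) |>.trans h1.tsum_eq.le)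
  · by_cases hk : k = k0
    · rw [if_pos hk]
      have := D.u_le_one k t
      have : 0 ≤ δ * (1 / 2 : ℝ) ^ (k + 1) := by positivity
      linarith
    · rw [if_neg hk, zero_add]
      exact h0 k hk
  · have : 0 ≤ δ * (1 / 2 : ℝ) ^ (k + 1) := by positivity
    split_ifs <;> linarith

/-- real terms -/
noncomputable def g (C : ℝ) (k : ℕ) (t : Cir) : ℝ := C * cs (D.m k : ℤ) t * D.u k t

lemma g_cont (C : ℝ) (k : ℕ) : Continuous (D.g C k) :=
  (continuous_const.mul (cs_cont _)).mul (D.u_cont k)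

lemma g_abs {C : ℝ} (hC : 0 ≤ C) (k : ℕ) (t : Cir) : |D.g C k t| ≤ C * D.u k t := by
  unfold g
  rw [abs_mul, abs_mul, abs_of_nonneg hC, abs_of_nonneg (D.u_nonneg k t)]
  have h1 := cs_abs (D.m k : ℤ) t
  have h2 := D.u_nonneg k t
  have h3 : C * |cs (D.m k : ℤ) t| ≤ C := mul_le_of_le_one_right hC h1
  exact mul_le_mul_of_nonneg_right h3 h2

lemma summable_g (hδ : 0 ≤ δ) {C : ℝ} (hC : 0 ≤ C) (t : Cir) : Summable (fun k => D.g C k t) := by
  apply Summable.of_norm_bounded ((D.summable_u hδ t).mul_left C)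
  intro k
  rw [Real.norm_eq_abs]
  exact D.g_abs hC k t

/-- the exponent of the symbol -/
noncomputable def Fr (C : ℝ) (t : Cir) : ℝ := ∑' k, D.g C k t

lemma Fr_tendsto (hδ : 0 ≤ δ) {C : ℝ} (hC : 0 ≤ C) (t : Cir) :
    Tendsto (fun n => ∑ k ∈ Finset.range n, D.g C k t) atTop (𝓝 (D.Fr C t)) :=
  (D.summable_g hδ hC t).hasSum.tendsto_sum_nat

lemma Fr_meas (hδ : 0 ≤ δ) {C : ℝ} (hC : 0 ≤ C) : Measurable (D.Fr C) := by
  refine measurable_of_tendsto_metrizable (f := fun n t => ∑ k ∈ Finset.range n, D.g C k t) ?_ ?_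
  · intro n
    exact (continuous_finsetSum _ fun k _ => D.g_cont C k).measurable
  · rw [tendsto_pi_nhds]
    exact fun t => D.Fr_tendsto hδ hC t

/-- the symbol -/
noncomputable def sy (C : ℝ) (t : Cir) : ℂ := Complex.exp (Complex.I * ((D.Fr C t : ℝ) : ℂ))

lemma sy_norm (C : ℝ) (t : Cir) : ‖D.sy C t‖ ≤ 1 := by
  unfold sy
  rw [mul_comm, Complex.norm_exp_ofReal_mul_I]

lemma sy_meas (hδ : 0 ≤ δ) {C : ℝ} (hC : 0 ≤ C) : Measurable (D.sy C) :=
  Complex.measurable_exp.comp (measurable_const.mul (Complex.measurable_ofReal.comp (D.Fr_meas hδ hC)))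

/-- near the `k`-th point, the exponent is close to `C cos(2π m_k t)` -/
lemma Fr_near (hδ : 0 ≤ δ) {C : ℝ} (hC : 0 ≤ C) {k : ℕ} {t : Cir} (h : |cs 1 t - D.c k| < D.s k) :
    |D.Fr C t - C * cs (D.m k : ℤ) t| ≤ 2 * C * δ := by
  have hr : |cs 1 t - D.c k| < D.r k := h.trans_le (D.hsr k)
  have hkey := fun i hi => D.key_of hr i hi
  have h1 : D.Fr C t = D.g C k t + ∑' i, if i = k then 0 else D.g C i t := by
    unfold Fr
    exact (D.summable_g hδ hC t).tsum_eq_add_tsum_ite k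
  have h2 : |∑' i, if i = k then 0 else D.g C i t| ≤ C * δ := by
    have h3 : HasSum (fun i : ℕ => C * (δ * (1 / 2 : ℝ) ^ (i + 1))) (C * δ) := (hasSum_geo δ).mul_left C
    have h4 : ∀ i, ‖(if i = k then 0 else D.g C i t)‖ ≤ C * (δ * (1 / 2 : ℝ) ^ (i + 1)) := by
      intro i
      by_cases hi : i = k
      · rw [if_pos hi, norm_zero]; positivity
      · rw [if_neg hi, Real.norm_eq_abs]
        exact (D.g_abs hC i t).trans (mul_le_mul_of_nonneg_left (hkey i hi) hC)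
    have := tsum_of_norm_bounded h3 h4
    rwa [Real.norm_eq_abs] at this
  have h5 : |D.g C k t - C * cs (D.m k : ℤ) t| ≤ C * δ := by
    have h6 : D.g C k t - C * cs (D.m k : ℤ) t = -(C * cs (D.m k : ℤ) t * (1 - D.u k t)) := by
      unfold g; ring
    have h7 : 1 - D.u k t ≤ δ := by
      have h8 : 1 - D.s k ^ 2 / 4 ≤ q (D.c k) t := q_near h.le
      have h9 : 0 ≤ 1 - D.s k ^ 2 / 4 ∨ 1 - D.s k ^ 2 / 4 < 0 := le_or_gt _ _
      have hn := D.near k
      rcases h9 with h9 | h9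
      · have h10 : (1 - D.s k ^ 2 / 4) ^ D.N k ≤ D.u k t := pow_le_pow_left₀ h9 h8 _
        linarith
      · exfalso
        -- `s k ≤ r k ≤ 1`, impossible since `2 (r k + r i) ≤ 2`
        have hsep := D.sep k (k + 1) (by omega)
        have hc1 := D.hc k
        have hc2 := D.hc (k + 1)
        have hr1 := D.r_nonneg (k + 1)
        have hsr := D.hsr k
        have hs0 := D.hs k
        have h11 : |D.c k - D.c (k + 1)| ≤ 2 := by
          refine (abs_sub _ _).trans ?_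
          linarith
        nlinarith
    have h12 : 0 ≤ 1 - D.u k t := by linarith [D.u_le_one k t]
    rw [h6, abs_neg, abs_mul, abs_mul, abs_of_nonneg hC, abs_of_nonneg h12]
    calc C * |cs (D.m k : ℤ) t| * (1 - D.u k t) ≤ C * 1 * δ := by
          apply mul_le_mul _ h7 h12 (by positivity)
          exact mul_le_mul_of_nonneg_left (cs_abs _ t) hC
      _ = C * δ := by ring
  rw [h1]
  have h13 : D.g C k t + (∑' i, if i = k then 0 else D.g C i t) - C * cs (D.m k : ℤ) t =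
      (D.g C k t - C * cs (D.m k : ℤ) t) + ∑' i, if i = k then 0 else D.g C i t := by ring
  rw [h13]
  refine (abs_add_le _ _).trans ?_
  linarith

lemma cs_neg (n : ℤ) (t : Cir) : cs n (-t) = cs n t := by
  unfold cs
  have h : (fourier n (-t) : ℂ) = conj (fourier n t : ℂ) := by
    rw [← fourier_neg, fourier_apply, fourier_apply, smul_neg, neg_smul]
  rw [h, Complex.conj_re]

lemma g_even (C : ℝ) (k : ℕ) (t : Cir) : D.g C k (-t) = D.g C k t := by
  unfold g u q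
  rw [cs_neg, cs_neg]

lemma sy_even (C : ℝ) (t : Cir) : D.sy C (-t) = D.sy C t := by
  unfold sy Fr
  simp only [g_even]

lemma coeff_even (C : ℝ) (s : ℤ) : fourierCoeff (D.sy C) (-s) = fourierCoeff (D.sy C) s := by
  unfold fourierCoeff
  have h1 := integral_neg_eq_self (μ := mu) (fun t : Cir => (fourier (-s) t : ℂ) • D.sy C t)
  rw [← h1]
  apply integral_congr_ae
  refine ae_of_all _ fun t => ?_
  change (fourier (- -s) t : ℂ) • D.sy C t = (fourier (-s) (-t) : ℂ) • D.sy C (-t)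
  rw [sy_even, fourier_apply, fourier_apply, neg_neg, smul_neg, neg_smul, neg_neg]

end Dat

end Pool.Agent.K7.H78.FS
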