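import Pool.Agent.K7.H78.FS.Sym

set_option autoImplicit false

open Filter Topology MeasureTheory AddCircle
open scoped ComplexConjugate

namespace Pool.Agent.K7.H78.FS

lemma normsq_H (f : H) : ‖f‖ ^ 2 = ∫ t, ‖f t‖ ^ 2 ∂mu := by
  have h1 : inner ℂ f f = ((‖f‖ : ℂ)) ^ 2 := inner_self_eq_norm_sq_to_K f
  rw [MeasureTheory.L2.inner_def] at h1
  have h2 : ∫ t, inner ℂ (f t) (f t) ∂mu = ((∫ t, ‖f t‖ ^ 2 ∂mu : ℝ) : ℂ) := by
    have e1 : ∫ t, ((‖f t‖ ^ 2 : ℝ) : ℂ) ∂mu = ((∫ t, ‖f t‖ ^ 2 ∂mu : ℝ) : ℂ) := integral_ofReal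
    rw [← e1]
    apply integral_congr_ae
    refine ae_of_all _ fun t => ?_
    have : inner ℂ (f t) (f t) = ((‖f t‖ : ℂ)) ^ 2 := inner_self_eq_norm_sq_to_K (f t)
    change inner ℂ (f t) (f t) = ((‖f t‖ ^ 2 : ℝ) : ℂ)
    rw [this]; push_cast; rfl
  rw [h2] at h1
  exact_mod_cast h1.symm

lemma normsq_M (b : Li) (f : H) : ‖M b f‖ ^ 2 = ∫ t, ‖b t‖ ^ 2 * ‖f t‖ ^ 2 ∂mu := by
  rw [normsq_H]
  apply integral_congr_ae
  filter_upwards [M_coe b f] with t ht
  rw [ht, norm_mul, mul_pow]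

lemma int_sq (f : H) : Integrable (fun t => ‖f t‖ ^ 2) mu := by
  have h := (memLp_two_iff_integrable_sq_norm (Lp.aestronglyMeasurable f)).1 (Lp.memLp f)
  exact h

/-- complexified peak function -/
noncomputable def qC (c : ℝ) : C(Cir, ℂ) := ⟨fun t => ((q c t : ℝ) : ℂ), Complex.continuous_ofReal.comp (q_cont c)⟩

lemma qC_app (c : ℝ) (t : Cir) : qC c t = ((q c t : ℝ) : ℂ) := rfl

/-- the basic polynomial -/
noncomputable def pc (c : ℝ) : Polynomial ℂ :=
  Polynomial.X ^ 2 - Polynomial.C (1 / 4) *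
    (Polynomial.C (1 / 2) * (Polynomial.X ^ 2 + 1) - Polynomial.C (c : ℂ) * Polynomial.X) ^ 2

lemma fourier_nat (j : ℕ) (t : Cir) : (fourier (j : ℤ) t : ℂ) = (fourier 1 t) ^ j := by
  rw [fourier_apply, fourier_apply, ← Circle.coe_pow, ← AddCircle.toCircle_nsmul]
  simp

lemma pc_eval (c : ℝ) (t : Cir) : (pc c).eval (fourier 1 t : ℂ) = (fourier 1 t : ℂ) ^ 2 * (q c t : ℂ) := by
  have h1 : (fourier 1 t : ℂ) * conj (fourier 1 t : ℂ) = 1 := by
    rw [Complex.mul_conj, Complex.normSq_eq_norm_sq, fourier_apply, Circle.norm_coe]; norm_num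
  unfold pc q cs
  simp only [Polynomial.eval_sub, Polynomial.eval_pow, Polynomial.eval_X, Polynomial.eval_mul,
    Polynomial.eval_C, Polynomial.eval_add, Polynomial.eval_one]
  push_cast
  rw [Complex.re_eq_add_conj]
  set z := (fourier 1 t : ℂ) with hz
  set w := conj z with hw
  linear_combination (1 / 8 : ℂ) * (z ^ 2 + (z * w + 1) / 2 - 2 * c * z) * h1

lemma natDegree_pc (c : ℝ) : (pc c).natDegree ≤ 4 := by
  unfold pc
  compute_degree

/-- the vector with coefficients given by a polynomial -/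
noncomputable def xv (p : Polynomial ℂ) (m : ℕ) : E := ∑ j ∈ Finset.range m, p.coeff j • e j

lemma xv_apply (p : Polynomial ℂ) (m j : ℕ) : (xv p m) j = if j < m then p.coeff j else 0 := by
  unfold xv
  rw [lp.coeFn_sum, Finset.sum_apply]
  simp only [lp.coeFn_smul, Pi.smul_apply, e_apply, smul_eq_mul, mul_ite, mul_one, mul_zero]
  rw [Finset.sum_ite_eq]
  simp

lemma Pn_xv (p : Polynomial ℂ) (n : ℕ) : Pn n (xv p (n + 1)) = xv p (n + 1) := by
  apply ext_coord
  intro j
  rw [Pn_apply, xv_apply]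
  by_cases h : j ≤ n
  · rw [if_pos h]
  · rw [if_neg h, if_neg (by omega)]

lemma V_xv {p : Polynomial ℂ} {m : ℕ} (h : p.natDegree < m) :
    ⇑(V (xv p m)) =ᵐ[mu] fun t => p.eval (fourier 1 t : ℂ) := by
  have h1 : V (xv p m) = ∑ j ∈ Finset.range m, p.coeff j • (fourierLp 2 (j : ℤ) : H) := by
    unfold xv
    rw [map_sum]
    refine Finset.sum_congr rfl fun j _ => ?_
    rw [V.map_smul, V_e]
  rw [h1]
  have h2 : ∀ᵐ t ∂mu, ∀ j : ℕ, (fourierLp 2 (j : ℤ) : H) t = fourier (j : ℤ) t := by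
    rw [ae_all_iff]
    intro j
    exact coeFn_fourierLp (T := 1) 2 (j : ℤ)
  have h3 : ∀ᵐ t ∂mu, ∀ j : ℕ, (p.coeff j • (fourierLp 2 (j : ℤ) : H) : H) t = p.coeff j * (fourierLp 2 (j : ℤ) : H) t := by
    rw [ae_all_iff]
    intro j
    filter_upwards [Lp.coeFn_smul (p.coeff j) (fourierLp 2 (j : ℤ) : H)] with t ht
    rw [ht]; rfl
  filter_upwards [Lp.coeFn_finsetSum (Finset.range m) (fun j : ℕ => p.coeff j • (fourierLp 2 (j : ℤ) : H)), h2, h3]
    with t h4 h5 h6
  rw [h4, Finset.sum_apply, Polynomial.eval_eq_sum_range' h]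
  refine Finset.sum_congr rfl fun j _ => ?_
  rw [h6, h5, fourier_nat]

/-- the model symbol kills polynomials of small degree -/
lemma model_zero {C : ℝ} (hC : J C = 0) {m : ℕ} (hm : 0 < m) (p : Polynomial ℂ) (j : ℕ) (hj : j < m) :
    (T (jj (al C m)) (xv p m)) j = 0 := by
  unfold xv
  rw [map_sum, lp.coeFn_sum, Finset.sum_apply]
  apply Finset.sum_eq_zero
  intro k hk
  rw [Finset.mem_range] at hk
  rw [map_smul, lp.coeFn_smul, Pi.smul_apply, T_entry, fourierCoeff_congr_ae (coe_jj _),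
    al_coeff hC hm, smul_zero]
  rw [abs_lt]
  constructor <;> omega

namespace Dat

variable {δ η : ℝ} (D : Dat δ η)

/-- The symbol as an element of `L^∞`. -/
noncomputable def sL (hδ : 0 ≤ δ) {C : ℝ} (hC : 0 ≤ C) : Li :=
  toLi (D.sy C) (D.sy_meas hδ hC).aestronglyMeasurable (D.sy_norm C)

/-- complex terms -/
noncomputable def G (C : ℝ) (k : ℕ) : C(Cir, ℂ) := (C : ℂ) • (fourier (D.m k : ℤ) * qC (D.c k) ^ D.N k)

lemma G_re (C : ℝ) (k : ℕ) (t : Cir) : (D.G C k t).re = D.g C k t := by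
  unfold G g u cs
  rw [ContinuousMap.smul_apply, ContinuousMap.mul_apply, ContinuousMap.pow_apply, qC_app, smul_eq_mul,
    ← Complex.ofReal_pow, Complex.re_ofReal_mul, Complex.re_mul_ofReal]
  ring

lemma G_norm {C : ℝ} (hC : 0 ≤ C) (k : ℕ) (t : Cir) : ‖D.G C k t‖ ≤ C * D.u k t := by
  have hu : 0 ≤ q (D.c k) t ^ D.N k := D.u_nonneg k t
  unfold G
  rw [ContinuousMap.smul_apply, ContinuousMap.mul_apply, ContinuousMap.pow_apply, qC_app, smul_eq_mul,
    ← Complex.ofReal_pow, norm_mul, norm_mul, Complex.norm_real, Complex.norm_real, Real.norm_eq_abs,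
    Real.norm_eq_abs, abs_of_nonneg hC, abs_of_nonneg hu, fourier_apply, Circle.norm_coe, one_mul]
  rfl

lemma basic_mem (c : ℝ) : (fourier 2 : C(Cir, ℂ)) * qC c ∈ An := by
  have h : (fourier 2 : C(Cir, ℂ)) * qC c = Polynomial.aeval (fourier 1 : C(Cir, ℂ)) (pc c) := by
    ext t
    have h1 : (Polynomial.aeval (fourier 1 : C(Cir, ℂ)) (pc c)) t = (pc c).eval (fourier 1 t : ℂ) := by
      have := Polynomial.aeval_algHom_apply (ContinuousMap.evalAlgHom ℂ ℂ t : C(Cir, ℂ) →ₐ[ℂ] ℂ) (fourier 1) (pc c)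
      rw [Polynomial.coe_aeval_eq_eval] at this
      exact this.symm
    rw [h1, pc_eval, ContinuousMap.mul_apply, qC_app]
    have h2 := fourier_nat 2 t
    push_cast at h2
    rw [h2]
  rw [h]
  have h1 : (fourier 1 : C(Cir, ℂ)) ∈ An := by simpa using fourier_mem 1
  exact Algebra.adjoin_le (Set.singleton_subset_iff.2 h1) (Polynomial.aeval_mem_adjoin_singleton ℂ _)

lemma G_mem (C : ℝ) (k : ℕ) : D.G C k ∈ An := by
  unfold G
  apply An.smul_mem
  have h1 : (fourier (D.m k : ℤ) : C(Cir, ℂ)) = fourier ((D.m k - 2 * D.N k : ℕ) : ℤ) * (fourier 2) ^ D.N k := by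
    ext t
    have h2 : D.m k = (D.m k - 2 * D.N k) + 2 * D.N k := by unfold m; omega
    have h3 := fourier_nat 2 t
    push_cast at h3
    rw [ContinuousMap.mul_apply, ContinuousMap.pow_apply, h3, fourier_nat, fourier_nat, ← pow_mul, ← pow_add,
      ← h2]
  rw [h1, mul_assoc, ← mul_pow]
  exact mul_mem (fourier_mem _) (pow_mem (basic_mem _) _)

/-- lower bound for the Toeplitz operator -/
lemma T_lower (hδ : 0 ≤ δ) {C : ℝ} (hC : 0 ≤ C) {K : ℝ} (hK : C * (1 + δ) ≤ K) (x : E) :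
    Real.exp (-K) * ‖x‖ ≤ ‖T (D.sL hδ hC) x‖ := by
  set F : ℕ → C(Cir, ℂ) := fun n => ∑ k ∈ Finset.range n, D.G C k with hF
  have hFA : ∀ n, F n ∈ An := fun n => An.sum_mem fun k _ => D.G_mem C k
  have hFapp : ∀ n t, F n t = ∑ k ∈ Finset.range n, D.G C k t := by
    intro n t
    rw [hF]
    simp only [ContinuousMap.coe_sum, Finset.sum_apply]
  have hFK : ∀ n t, ‖F n t‖ ≤ K := by
    intro n t
    rw [hFapp]
    refine (norm_sum_le _ _).trans ?_
    refine (Finset.sum_le_sum fun k _ => D.G_norm hC k t).trans ?_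
    rw [← Finset.mul_sum]
    exact (mul_le_mul_of_nonneg_left (D.sum_u_le hδ t n) hC).trans hK
  have hlb := fun n => lower_bound (hFA n) (hFK n) x
  have hre : ∀ t, Tendsto (fun n => (F n t).re) atTop (𝓝 (D.Fr C t)) := by
    intro t
    refine (D.Fr_tendsto hδ hC t).congr fun n => ?_
    rw [hFapp, Complex.re_sum]
    exact Finset.sum_congr rfl fun k _ => (D.G_re C k t).symm
  have hsym : ∀ t, Tendsto (fun n => sym (F n) t) atTop (𝓝 (D.sy C t)) := by
    intro t
    simp only [sym_coe]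
    unfold sy
    exact (Complex.continuous_exp.tendsto _).comp
      (((Complex.continuous_ofReal.tendsto _).comp (hre t)).const_mul Complex.I)
  set a := D.sL hδ hC with ha
  have hco : ⇑a =ᵐ[mu] D.sy C := toLi_coe _ _ _
  have hlim : Tendsto (fun n => ‖M (jj (sym (F n)) - a) (V x)‖ ^ 2) atTop (𝓝 0) := by
    simp only [normsq_M]
    have h0 : (0 : ℝ) = ∫ t : Cir, (0 : ℝ) ∂mu := by simp
    rw [h0]
    apply tendsto_integral_of_dominated_convergence (fun t => 4 * ‖(V x) t‖ ^ 2)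
    · intro n
      exact ((Lp.aestronglyMeasurable _).norm.pow 2).mul ((Lp.aestronglyMeasurable _).norm.pow 2)
    · exact (int_sq _).const_mul 4
    · intro n
      filter_upwards [Lp.coeFn_sub (jj (sym (F n))) a, coe_jj (sym (F n)), hco] with t h1 h2 h3
      rw [Real.norm_eq_abs, abs_of_nonneg (by positivity), h1, Pi.sub_apply, h2, h3]
      apply mul_le_mul_of_nonneg_right _ (by positivity)
      have h4 : ‖sym (F n) t‖ ≤ 1 := by
        rw [sym_coe, mul_comm, Complex.norm_exp_ofReal_mul_I]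
      have h5 : ‖sym (F n) t - D.sy C t‖ ≤ 2 :=
        (norm_sub_le _ _).trans (by linarith [D.sy_norm C t])
      calc ‖sym (F n) t - D.sy C t‖ ^ 2 ≤ 2 ^ 2 := pow_le_pow_left₀ (norm_nonneg _) h5 2
        _ = 4 := by norm_num
    · have hall : ∀ᵐ t ∂mu, ∀ n, (jj (sym (F n)) - a : Li) t = sym (F n) t - D.sy C t := by
        rw [ae_all_iff]
        intro n
        filter_upwards [Lp.coeFn_sub (jj (sym (F n))) a, coe_jj (sym (F n)), hco] with t h1 h2 h3
        rw [h1, Pi.sub_apply, h2, h3]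
      filter_upwards [hall] with t ht
      simp only [ht]
      have h5 : Tendsto (fun n => ‖sym (F n) t - D.sy C t‖ ^ 2 * ‖(V x) t‖ ^ 2) atTop
          (𝓝 (‖D.sy C t - D.sy C t‖ ^ 2 * ‖(V x) t‖ ^ 2)) :=
        ((((hsym t).sub_const _).norm).pow 2).mul_const _
      simpa using h5
  have hlim2 : Tendsto (fun n => ‖M (jj (sym (F n)) - a) (V x)‖) atTop (𝓝 0) := by
    have h1 := hlim.sqrt
    rw [Real.sqrt_zero] at h1
    refine h1.congr fun n => ?_
    exact Real.sqrt_sq (norm_nonneg _)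
  have hT : ∀ n, ‖T (jj (sym (F n))) x‖ ≤ ‖T a x‖ + ‖M (jj (sym (F n)) - a) (V x)‖ := by
    intro n
    have h1 : T (jj (sym (F n))) x = T a x +
        ContinuousLinearMap.adjoint V.toContinuousLinearMap (M (jj (sym (F n)) - a) (V x)) := by
      rw [T_app, T_app, map_sub, ← map_add]
      congr 1
      have : (M (jj (sym (F n))) - M a) (V x) = M (jj (sym (F n))) (V x) - M a (V x) := rfl
      rw [this]
      abel
    rw [h1]
    exact (norm_add_le _ _).trans (add_le_add_right (norm_adj_V_le _) _)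
  have hlim3 : Tendsto (fun n => ‖T a x‖ + ‖M (jj (sym (F n)) - a) (V x)‖) atTop (𝓝 (‖T a x‖ + 0)) :=
    tendsto_const_nhds.add hlim2
  rw [add_zero] at hlim3
  exact ge_of_tendsto' hlim3 fun n => (hlb n).trans (hT n)

/-- approximate null vectors of the finite sections -/
lemma approx_null (hδ : 0 ≤ δ) {C : ℝ} (hC : 0 ≤ C) (hC4 : C ≤ 4) (hJ : J C = 0) (k : ℕ) :
    ∃ x : E, x ≠ 0 ∧ Pn (D.m k - 1) x = x ∧
      ‖Pn (D.m k - 1) (T (D.sL hδ hC) x)‖ ^ 2 ≤ (64 * δ ^ 2 + 4 * η) * ‖x‖ ^ 2 := by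
  set a := D.sL hδ hC with ha
  have hco : ⇑a =ᵐ[mu] D.sy C := toLi_coe _ _ _
  set m := D.m k with hm
  have hm0 : 0 < m := by rw [hm]; unfold Dat.m; omega
  have hm1 : m - 1 + 1 = m := by omega
  set p : Polynomial ℂ := pc (D.c k) ^ D.N' k with hp
  have hdeg : p.natDegree < m := by
    have h1 : p.natDegree ≤ D.N' k * 4 :=
      Polynomial.natDegree_pow_le.trans (Nat.mul_le_mul_left _ (natDegree_pc _))
    rw [hm]; unfold Dat.m; omega
  set x : E := xv p m with hx
  have hVx : ⇑(V x) =ᵐ[mu] fun t => p.eval (fourier 1 t : ℂ) := V_xv hdeg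
  have hpn : ∀ t : Cir, ‖p.eval (fourier 1 t : ℂ)‖ ^ 2 = q (D.c k) t ^ (2 * D.N' k) := by
    intro t
    rw [hp, Polynomial.eval_pow, pc_eval, norm_pow, norm_mul, norm_pow, fourier_apply, Circle.norm_coe,
      Complex.norm_real, Real.norm_eq_abs, abs_of_nonneg (q_nonneg (D.hc k) t)]
    ring
  have hnx : ‖x‖ ^ 2 = ∫ t, q (D.c k) t ^ (2 * D.N' k) ∂mu := by
    rw [← V.norm_map x, normsq_H]
    apply integral_congr_ae
    filter_upwards [hVx] with t ht
    rw [ht, hpn]
  have hx0 : x ≠ 0 := by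
    have hpos : 0 < ∫ t, q (D.c k) t ^ (2 * D.N' k) ∂mu := by
      obtain ⟨t0, ht0⟩ := exists_cs (D.hc k)
      refine Continuous.integral_pos_of_hasCompactSupport_nonneg_nonzero ((q_cont _).pow _)
        (HasCompactSupport.of_compactSpace _) (fun t => pow_nonneg (q_nonneg (D.hc k) t) _) (x := t0) ?_
      unfold q
      rw [ht0]; simp
    intro h
    rw [h, norm_zero] at hnx
    rw [← hnx] at hpos
    norm_num at hpos
  refine ⟨x, hx0, ?_, ?_⟩
  · have := Pn_xv p (m - 1)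
    rw [hm1] at this
    exact this
  -- splitting
  have h1 : Pn (m - 1) (T a x) = Pn (m - 1) (ContinuousLinearMap.adjoint V.toContinuousLinearMap
      (M (a - jj (al C m)) (V x))) := by
    have h2 : T a x = T (jj (al C m)) x +
        ContinuousLinearMap.adjoint V.toContinuousLinearMap (M (a - jj (al C m)) (V x)) := by
      rw [T_app, T_app, map_sub, ← map_add]
      congr 1
      have : (M a - M (jj (al C m))) (V x) = M a (V x) - M (jj (al C m)) (V x) := rfl
      rw [this]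
      abel
    have h3 : Pn (m - 1) (T (jj (al C m)) x) = 0 := by
      apply ext_coord
      intro j
      rw [Pn_apply]
      by_cases hj : j ≤ m - 1
      · rw [if_pos hj, hx, model_zero hJ hm0 p j (by omega)]; rfl
      · rw [if_neg hj]; rfl
    rw [h2, map_add, h3, zero_add]
  have h4 : ‖Pn (m - 1) (T a x)‖ ≤ ‖M (a - jj (al C m)) (V x)‖ := by
    rw [h1]
    refine ((Pn (m - 1)).le_opNorm _).trans ((mul_le_of_le_one_left (norm_nonneg _) (norm_Pn_le _)).trans ?_)
    exact norm_adj_V_le _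
  have h5 : ‖M (a - jj (al C m)) (V x)‖ ^ 2 ≤ (64 * δ ^ 2 + 4 * η) * ‖x‖ ^ 2 := by
    rw [normsq_M]
    set Wc : Set Cir := {t : Cir | D.s k ≤ |cs 1 t - D.c k|} with hWc
    have hWm : MeasurableSet Wc :=
      (isClosed_le continuous_const ((cs_cont 1).sub continuous_const).abs).measurableSet
    have hqi : Integrable (fun t => q (D.c k) t ^ (2 * D.N' k)) mu := int_cont ((q_cont _).pow _)
    have h6 : ∫ t, ‖(a - jj (al C m) : Li) t‖ ^ 2 * ‖(V x) t‖ ^ 2 ∂mu ≤
        ∫ t, (64 * δ ^ 2 * q (D.c k) t ^ (2 * D.N' k) +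
          4 * Wc.indicator (fun t => q (D.c k) t ^ (2 * D.N' k)) t) ∂mu := by
      apply integral_mono_of_nonneg
      · exact ae_of_all _ fun t => by positivity
      · exact (hqi.const_mul _).add ((hqi.indicator hWm).const_mul _)
      · filter_upwards [Lp.coeFn_sub a (jj (al C m)), coe_jj (al C m), hco, hVx] with t e1 e2 e3 e4
        rw [e1, Pi.sub_apply, e2, e3, e4, hpn]
        have hq0 : 0 ≤ q (D.c k) t ^ (2 * D.N' k) := pow_nonneg (q_nonneg (D.hc k) t) _
        have hal : al C m t = Complex.exp (Complex.I * ((C * cs (m : ℤ) t : ℝ) : ℂ)) := rfl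
        by_cases ht : t ∈ Wc
        · rw [Set.indicator_of_mem ht]
          have h7 : ‖D.sy C t - al C m t‖ ≤ 2 := by
            refine (norm_sub_le _ _).trans ?_
            have : ‖al C m t‖ ≤ 1 := by rw [hal, mul_comm, Complex.norm_exp_ofReal_mul_I]
            linarith [D.sy_norm C t]
          have h8 : ‖D.sy C t - al C m t‖ ^ 2 ≤ 4 := by
            calc ‖D.sy C t - al C m t‖ ^ 2 ≤ 2 ^ 2 := pow_le_pow_left₀ (norm_nonneg _) h7 2
              _ = 4 := by norm_num
          have h9 := mul_le_mul_of_nonneg_right h8 hq0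
          have h10 : 0 ≤ 64 * δ ^ 2 * q (D.c k) t ^ (2 * D.N' k) := by positivity
          linarith
        · rw [Set.indicator_of_notMem ht, mul_zero, add_zero]
          have ht' : |cs 1 t - D.c k| < D.s k := not_le.1 ht
          have h7 := D.Fr_near hδ hC ht'
          have h8 : ‖D.sy C t - al C m t‖ ≤ 8 * δ := by
            rw [hal]
            unfold sy
            have h9 : Complex.exp (Complex.I * ((D.Fr C t : ℝ) : ℂ)) - Complex.exp (Complex.I * ((C * cs (m : ℤ) t : ℝ) : ℂ))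
              = Complex.exp (((C * cs (m : ℤ) t : ℝ) : ℂ) * Complex.I) *
                (Complex.exp (((D.Fr C t - C * cs (m : ℤ) t : ℝ) : ℂ) * Complex.I) - 1) := by
              rw [mul_sub, ← Complex.exp_add, mul_one]
              congr 1
              · congr 1; push_cast; ring
              · congr 1; ring
            rw [h9, norm_mul, Complex.norm_exp_ofReal_mul_I, one_mul]
            have h10 : ‖Complex.exp (Complex.I * ((D.Fr C t - C * cs (m : ℤ) t : ℝ) : ℂ)) - 1‖ ≤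
                ‖D.Fr C t - C * cs (m : ℤ) t‖ := Real.norm_exp_I_mul_ofReal_sub_one_le
            rw [mul_comm, Real.norm_eq_abs] at h10
            refine h10.trans (h7.trans ?_)
            nlinarith
          have h10 : ‖D.sy C t - al C m t‖ ^ 2 ≤ 64 * δ ^ 2 := by
            calc ‖D.sy C t - al C m t‖ ^ 2 ≤ (8 * δ) ^ 2 := pow_le_pow_left₀ (norm_nonneg _) h8 2
              _ = 64 * δ ^ 2 := by ring
          exact mul_le_mul_of_nonneg_right h10 hq0
    refine h6.trans ?_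
    have h7 : ∫ t, (64 * δ ^ 2 * q (D.c k) t ^ (2 * D.N' k) +
          4 * Wc.indicator (fun t => q (D.c k) t ^ (2 * D.N' k)) t) ∂mu =
        64 * δ ^ 2 * ∫ t, q (D.c k) t ^ (2 * D.N' k) ∂mu + 4 * ∫ t in Wc, q (D.c k) t ^ (2 * D.N' k) ∂mu := by
      rw [integral_add (hqi.const_mul _) ((hqi.indicator hWm).const_mul _), integral_const_mul,
        integral_const_mul, integral_indicator hWm]
    rw [h7, hnx]
    have h8 := D.conc k
    nlinarith
  calc ‖Pn (m - 1) (T a x)‖ ^ 2 ≤ ‖M (a - jj (al C m)) (V x)‖ ^ 2 :=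
        pow_le_pow_left₀ (norm_nonneg _) h4 2
    _ ≤ _ := h5

end Dat

end Pool.Agent.K7.H78.FS
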